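import Pool.Agent.H21.SX.Nr

/-! Averages over permutations which preserve blocks of coordinates. -/

set_option autoImplicit false

open MeasureTheory Finset Set
open scoped ENNReal

namespace Pool.Agent.H21.SX

open Pool.Agent.H57.SM

theorem p_inv {n : ℕ} (σ : Equiv.Perm (Fin n)) (l : Fin n) : σ (σ⁻¹ l) = l :=
  Equiv.apply_symm_apply σ l

theorem inv_p {n : ℕ} (σ : Equiv.Perm (Fin n)) (l : Fin n) : σ⁻¹ (σ l) = l :=
  Equiv.symm_apply_apply σ l

/-- elements of `S` in the block of `i` -/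
def blk {n : ℕ} (β : Fin n → ℕ) (S : Finset (Fin n)) (i : Fin n) : Finset (Fin n) :=
  S.filter fun l => β l = β i

/-- average over the block inside `S` -/
noncomputable def avg {n : ℕ} (β : Fin n → ℕ) (S : Finset (Fin n)) (f : Fin n → ℝ)
    (i : Fin n) : ℝ :=
  if i ∈ S then (∑ l ∈ blk β S i, f l) / (blk β S i).card else f i

/-- permutations of `S` preserving the blocks -/
def HH {n : ℕ} (β : Fin n → ℕ) (S : Finset (Fin n)) : Finset (Equiv.Perm (Fin n)) :=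
  Finset.univ.filter fun σ => (∀ i, β (σ i) = β i) ∧ ∀ i, i ∉ S → σ i = i

theorem mem_blk {n : ℕ} {β : Fin n → ℕ} {S : Finset (Fin n)} {i l : Fin n} :
    l ∈ blk β S i ↔ l ∈ S ∧ β l = β i := by simp [blk]

theorem mem_HH {n : ℕ} {β : Fin n → ℕ} {S : Finset (Fin n)} {σ : Equiv.Perm (Fin n)} :
    σ ∈ HH β S ↔ (∀ i, β (σ i) = β i) ∧ ∀ i, i ∉ S → σ i = i := by simp [HH]

theorem one_HH {n : ℕ} (β : Fin n → ℕ) (S : Finset (Fin n)) : (1 : Equiv.Perm (Fin n)) ∈ HH β S := by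
  rw [mem_HH]
  exact ⟨fun i => rfl, fun i _ => rfl⟩

theorem mul_HH {n : ℕ} {β : Fin n → ℕ} {S : Finset (Fin n)} {σ τ : Equiv.Perm (Fin n)}
    (hσ : σ ∈ HH β S) (hτ : τ ∈ HH β S) : σ * τ ∈ HH β S := by
  rw [mem_HH] at *
  refine ⟨fun i => ?_, fun i hi => ?_⟩
  · rw [Equiv.Perm.mul_apply, hσ.1, hτ.1]
  · rw [Equiv.Perm.mul_apply, hτ.2 i hi, hσ.2 i hi]

theorem inv_HH {n : ℕ} {β : Fin n → ℕ} {S : Finset (Fin n)} {σ : Equiv.Perm (Fin n)}
    (hσ : σ ∈ HH β S) : σ⁻¹ ∈ HH β S := by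
  rw [mem_HH] at *
  refine ⟨fun i => ?_, fun i hi => ?_⟩
  · have := hσ.1 (σ⁻¹ i)
    rw [← this, p_inv]
  · rw [Equiv.Perm.inv_eq_iff_eq]
    exact (hσ.2 i hi).symm

theorem swap_HH {n : ℕ} {β : Fin n → ℕ} {S : Finset (Fin n)} {i l : Fin n} (hi : i ∈ S)
    (hl : l ∈ blk β S i) : Equiv.swap i l ∈ HH β S := by
  rw [mem_blk] at hl
  rw [mem_HH]
  refine ⟨fun k => ?_, fun k hk => ?_⟩
  · rcases eq_or_ne k i with rfl | h1
    · rw [Equiv.swap_apply_left, hl.2]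
    · rcases eq_or_ne k l with rfl | h2
      · rw [Equiv.swap_apply_right, hl.2]
      · rw [Equiv.swap_apply_of_ne_of_ne h1 h2]
  · apply Equiv.swap_apply_of_ne_of_ne
    · rintro rfl; exact hk hi
    · rintro rfl; exact hk hl.1

theorem HH_S {n : ℕ} {β : Fin n → ℕ} {S : Finset (Fin n)} {σ : Equiv.Perm (Fin n)}
    (hσ : σ ∈ HH β S) {i : Fin n} (hi : i ∈ S) : σ i ∈ S := by
  rw [mem_HH] at hσ
  by_contra h
  have h1 := hσ.2 _ h
  have h2 := σ.injective h1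
  rw [h2] at h
  exact h hi

theorem HH_blk {n : ℕ} {β : Fin n → ℕ} {S : Finset (Fin n)} {σ : Equiv.Perm (Fin n)}
    (hσ : σ ∈ HH β S) (i : Fin n) (f : Fin n → ℝ) :
    ∑ l ∈ blk β S i, f (σ l) = ∑ l ∈ blk β S i, f l := by
  have hσ' := inv_HH hσ
  apply Finset.sum_bij (fun l _ => σ l)
  · intro l hl
    rw [mem_blk] at *
    exact ⟨HH_S hσ hl.1, by rw [(mem_HH.1 hσ).1, hl.2]⟩
  · intro a _ b _ hab
    exact σ.injective hab
  · intro l hl
    rw [mem_blk] at hl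
    refine ⟨σ⁻¹ l, ?_, p_inv σ l⟩
    rw [mem_blk]
    exact ⟨HH_S hσ' hl.1, by rw [(mem_HH.1 hσ').1, hl.2]⟩
  · intro l _
    rfl

theorem self_blk {n : ℕ} {β : Fin n → ℕ} {S : Finset (Fin n)} {i : Fin n} (hi : i ∈ S) :
    i ∈ blk β S i := mem_blk.2 ⟨hi, rfl⟩

theorem blk_pos {n : ℕ} {β : Fin n → ℕ} {S : Finset (Fin n)} {i : Fin n} (hi : i ∈ S) :
    (0 : ℝ) < (blk β S i).card := by
  exact_mod_cast Finset.card_pos.2 ⟨i, self_blk hi⟩

theorem HH_pos {n : ℕ} (β : Fin n → ℕ) (S : Finset (Fin n)) : (0 : ℝ) < (HH β S).card := by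
  exact_mod_cast Finset.card_pos.2 ⟨1, one_HH β S⟩

theorem sum_HH {n : ℕ} (β : Fin n → ℕ) (S : Finset (Fin n)) (f : Fin n → ℝ) (i : Fin n) :
    ∑ σ ∈ HH β S, f (σ i) = (HH β S).card * avg β S f i := by
  classical
  unfold avg
  split_ifs with hi
  · -- all points of the block give the same sum
    have h1 : ∀ l ∈ blk β S i, ∑ σ ∈ HH β S, f (σ l) = ∑ σ ∈ HH β S, f (σ i) := by
      intro l hl
      have hs := swap_HH hi hl
      apply Finset.sum_bij (fun σ _ => σ * Equiv.swap i l)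
      · intro σ hσ
        exact mul_HH hσ hs
      · intro a _ b _ hab
        exact mul_right_cancel hab
      · intro σ hσ
        refine ⟨σ * Equiv.swap i l, mul_HH hσ hs, ?_⟩
        rw [mul_assoc, Equiv.swap_mul_self, mul_one]
      · intro σ _
        rw [Equiv.Perm.mul_apply, Equiv.swap_apply_left]
    have h2 : ∑ l ∈ blk β S i, ∑ σ ∈ HH β S, f (σ l) =
        (blk β S i).card * ∑ σ ∈ HH β S, f (σ i) := by
      rw [Finset.sum_congr rfl h1, Finset.sum_const, nsmul_eq_mul]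
    rw [Finset.sum_comm, Finset.sum_congr rfl fun σ hσ => HH_blk hσ i f, Finset.sum_const,
      nsmul_eq_mul] at h2
    have h3 := blk_pos (β := β) hi
    field_simp
    linarith
  · rw [Finset.sum_congr rfl fun σ hσ => by rw [(mem_HH.1 hσ).2 i hi], Finset.sum_const,
      nsmul_eq_mul]

theorem avg_eq {n : ℕ} (β : Fin n → ℕ) (S : Finset (Fin n)) (f : Fin n → ℝ) :
    avg β S f = fun i => ∑ σ ∈ HH β S, 1 / ((HH β S).card : ℝ) * f (σ i) := by
  funext i
  rw [← Finset.mul_sum, sum_HH]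
  have := HH_pos β S
  field_simp

/-- the class of laws: invariant under permutations inside the blocks, and under changes of signs
of whole blocks, block `0` excepted -/
structure BX {n : ℕ} (β : Fin n → ℕ) (μ : Measure (Fin n → ℝ)) : Prop where
  lc : LC μ
  perm : ∀ σ : Equiv.Perm (Fin n), (∀ i, β (σ i) = β i) → μ.map (fun x i => x (σ i)) = μ
  flip : ∀ ε : ℕ → Bool, ε 0 = true → μ.map (fun x i => sg (ε (β i)) * x i) = μ

theorem perm_cont {n : ℕ} (σ : Equiv.Perm (Fin n)) :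
    Continuous (fun (x : Fin n → ℝ) i => x (σ i)) := by fun_prop

theorem sum_perm {n : ℕ} (σ : Equiv.Perm (Fin n)) (t x : Fin n → ℝ) :
    ∑ i, t (σ i) * x i = ∑ i, t i * x (σ⁻¹ i) := by
  rw [← Equiv.sum_comp σ (fun i => t i * x (σ⁻¹ i))]
  exact Finset.sum_congr rfl fun i _ => by rw [inv_p]

theorem nr_perm {n : ℕ} {β : Fin n → ℕ} {μ : Measure (Fin n → ℝ)} (h : BX β μ) (p : ℝ)
    {σ : Equiv.Perm (Fin n)} (hσ : ∀ i, β (σ i) = β i) (t : Fin n → ℝ) :
    nr μ p (fun i => t (σ i)) = nr μ p t := by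
  have h1 := nr_map (μ := μ) (p := p) (y := fun (x : Fin n → ℝ) i => x (σ i))
    (perm_cont σ).measurable (t := fun i => t (σ i)) (t' := t) (c := 1) zero_le_one
    (fun x => by
      rw [one_mul]
      exact Equiv.sum_comp σ (fun i => t i * x i))
  rw [h.perm σ hσ, one_mul] at h1
  exact h1

theorem nr_avg {n : ℕ} {β : Fin n → ℕ} {μ : Measure (Fin n → ℝ)} (h : BX β μ) {p : ℝ}
    (hp : 1 ≤ p) (S : Finset (Fin n)) (t : Fin n → ℝ) : nr μ p (avg β S t) ≤ nr μ p t := by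
  rw [avg_eq]
  have h0 := HH_pos β S
  refine (nr_sum h.lc hp (HH β S) (fun _ => 1 / ((HH β S).card : ℝ)) (fun _ => by positivity)
    (fun σ i => t (σ i))).trans ?_
  rw [Finset.sum_congr rfl fun σ hσ => by rw [nr_perm h p (mem_HH.1 hσ).1], Finset.sum_const,
    nsmul_eq_mul]
  apply le_of_eq
  field_simp

theorem int_Sup_perm {n : ℕ} {β : Fin n → ℕ} {μ : Measure (Fin n → ℝ)} (h : BX β μ)
    {σ : Equiv.Perm (Fin n)} (hσ : ∀ i, β (σ i) = β i) {V : Finset (Fin n → ℝ)}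
    (hV : V.Nonempty) :
    Integrable (fun x => Sup V hV fun i => x (σ i)) μ ∧
    ∫ x, Sup V hV (fun i => x (σ i)) ∂μ = ∫ x, Sup V hV x ∂μ := by
  have hm : Measurable (fun (x : Fin n → ℝ) i => x (σ i)) := (perm_cont σ).measurable
  have h1 := x27_Sup_int h.lc hV
  rw [← h.perm σ hσ] at h1
  refine ⟨h1.comp_measurable hm, ?_⟩
  conv_rhs => rw [← h.perm σ hσ]
  rw [integral_map hm.aemeasurable (Sup_cont hV).aestronglyMeasurable]

theorem int_Sup_flip {n : ℕ} {β : Fin n → ℕ} {μ : Measure (Fin n → ℝ)} (h : BX β μ)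
    {ε : ℕ → Bool} (hε : ε 0 = true) {V : Finset (Fin n → ℝ)}
    (hV : V.Nonempty) :
    Integrable (fun x => Sup V hV fun i => sg (ε (β i)) * x i) μ ∧
    ∫ x, Sup V hV (fun i => sg (ε (β i)) * x i) ∂μ = ∫ x, Sup V hV x ∂μ := by
  have hm : Measurable (fun (x : Fin n → ℝ) i => sg (ε (β i)) * x i) := by fun_prop
  have h1 := x27_Sup_int h.lc hV
  rw [← h.flip ε hε] at h1
  refine ⟨h1.comp_measurable hm, ?_⟩
  conv_rhs => rw [← h.flip ε hε]
  rw [integral_map hm.aemeasurable (Sup_cont hV).aestronglyMeasurable]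

/-- averaging decreases the expected supremum -/
theorem int_Sup_avg {n : ℕ} {β : Fin n → ℕ} {μ : Measure (Fin n → ℝ)} (h : BX β μ)
    (S : Finset (Fin n)) {V : Finset (Fin n → ℝ)} (hV : V.Nonempty) :
    ∫ x, Sup (V.image (avg β S)) (hV.image _) x ∂μ ≤ ∫ x, Sup V hV x ∂μ := by
  have h0 := HH_pos β S
  have h1 : ∀ x, Sup (V.image (avg β S)) (hV.image _) x ≤
      ∑ σ ∈ HH β S, 1 / ((HH β S).card : ℝ) * Sup V hV (fun i => x (σ⁻¹ i)) := by
    intro x
    apply Sup_le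
    intro v' hv' w' hw'
    obtain ⟨v, hv, rfl⟩ := Finset.mem_image.1 hv'
    obtain ⟨w, hw, rfl⟩ := Finset.mem_image.1 hw'
    rw [avg_eq, avg_eq]
    have e : ∑ i, ((∑ σ ∈ HH β S, 1 / ((HH β S).card : ℝ) * v (σ i)) -
        ∑ σ ∈ HH β S, 1 / ((HH β S).card : ℝ) * w (σ i)) * x i =
        ∑ σ ∈ HH β S, 1 / ((HH β S).card : ℝ) * ∑ i, (v i - w i) * x (σ⁻¹ i) := by
      have e1 : ∀ σ ∈ HH β S, 1 / ((HH β S).card : ℝ) * ∑ i, (v i - w i) * x (σ⁻¹ i) =
          ∑ i, 1 / ((HH β S).card : ℝ) * ((v (σ i) - w (σ i)) * x i) := by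
        intro σ _
        rw [← sum_perm σ (fun i => v i - w i) x, Finset.mul_sum]
      rw [Finset.sum_congr rfl e1, Finset.sum_comm]
      apply Finset.sum_congr rfl
      intro i _
      rw [← Finset.sum_sub_distrib, Finset.sum_mul]
      exact Finset.sum_congr rfl fun σ _ => by ring
    rw [e]
    apply Finset.sum_le_sum
    intro σ _
    apply mul_le_mul_of_nonneg_left _ (by positivity)
    exact le_Sup hV _ hv hw
  have h2 : ∀ σ ∈ HH β S, Integrable (fun x => 1 / ((HH β S).card : ℝ) *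
      Sup V hV (fun i => x (σ⁻¹ i))) μ := by
    intro σ hσ
    exact ((int_Sup_perm h (mem_HH.1 (inv_HH hσ)).1 hV).1).const_mul _
  calc ∫ x, Sup (V.image (avg β S)) (hV.image _) x ∂μ
      ≤ ∫ x, ∑ σ ∈ HH β S, 1 / ((HH β S).card : ℝ) * Sup V hV (fun i => x (σ⁻¹ i)) ∂μ :=
        integral_mono (x27_Sup_int h.lc _) (integrable_finsetSum _ h2) h1
    _ = ∑ σ ∈ HH β S, 1 / ((HH β S).card : ℝ) * ∫ x, Sup V hV x ∂μ := by
        rw [integral_finsetSum _ h2]
        apply Finset.sum_congr rfl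
        intro σ hσ
        rw [integral_const_mul, (int_Sup_perm h (mem_HH.1 (inv_HH hσ)).1 hV).2]
    _ = _ := by
        rw [Finset.sum_const, nsmul_eq_mul]
        field_simp

end Pool.Agent.H21.SX
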