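import Pool.Agent.H21.SX.Exist

/-! The vector of block sums. -/

set_option autoImplicit false

open MeasureTheory Finset Set
open scoped ENNReal

namespace Pool.Agent.H21.SX

open Pool.Agent.H57.SM

/-- representative of the block of `i` -/
noncomputable def rep {n : ℕ} (β : Fin n → ℕ) (i : Fin n) : Fin n :=
  (blk β univ i).min' ⟨i, self_blk (Finset.mem_univ i)⟩

theorem rep_blk {n : ℕ} (β : Fin n → ℕ) (i : Fin n) : β (rep β i) = β i := by
  have h := Finset.min'_mem (blk β univ i) ⟨i, self_blk (Finset.mem_univ i)⟩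
  exact (mem_blk.1 h).2

theorem rep_congr {n : ℕ} {β : Fin n → ℕ} {i l : Fin n} (h : β l = β i) : rep β l = rep β i := by
  unfold rep
  congr 1
  exact blk_congr univ h

/-- representatives of the blocks different from block `0` -/
noncomputable def RS {n : ℕ} (β : Fin n → ℕ) : Finset (Fin n) :=
  univ.filter fun i => β i ≠ 0 ∧ rep β i = i

theorem mem_RS {n : ℕ} {β : Fin n → ℕ} {i : Fin n} : i ∈ RS β ↔ β i ≠ 0 ∧ rep β i = i := by
  simp [RS]

/-- the block sums, at the representatives -/
noncomputable def zz {n : ℕ} (β : Fin n → ℕ) (x : Fin n → ℝ) (i : Fin n) : ℝ :=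
  if i ∈ RS β then ∑ l ∈ blk β univ i, x l else 0

/-- the block means, at the representatives -/
noncomputable def LZ {n : ℕ} (β : Fin n → ℕ) (v : Fin n → ℝ) (i : Fin n) : ℝ :=
  if i ∈ RS β then avg β univ v i else 0

theorem zz_cont {n : ℕ} (β : Fin n → ℕ) : Continuous (zz β) := by
  apply continuous_pi
  intro i
  unfold zz
  split_ifs
  · fun_prop
  · fun_prop

theorem zz_lin {n : ℕ} (β : Fin n → ℕ) (a b : ℝ) (x x' : Fin n → ℝ) :
    zz β (fun i => a * x i + b * x' i) = fun i => a * zz β x i + b * zz β x' i := by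
  funext i
  unfold zz
  split_ifs
  · rw [Finset.sum_add_distrib, Finset.mul_sum, Finset.mul_sum]
  · ring

theorem avg_const {n : ℕ} {β : Fin n → ℕ} (a : Fin n → ℝ) {i l : Fin n} (h : β l = β i) :
    avg β univ a l = avg β univ a i := by
  rw [avg_of_mem (Finset.mem_univ _), avg_of_mem (Finset.mem_univ _), blk_congr univ h]

theorem zz_sum {n : ℕ} (β : Fin n → ℕ) (a x : Fin n → ℝ) :
    ∑ i, LZ β a i * zz β x i = 1 * ∑ i, (if β i ≠ 0 then avg β univ a i else 0) * x i := by
  classical
  rw [one_mul]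
  have h1 : ∀ i, LZ β a i * zz β x i =
      ∑ l, if i ∈ RS β ∧ β l = β i then avg β univ a l * x l else 0 := by
    intro i
    unfold LZ zz
    by_cases hi : i ∈ RS β
    · rw [if_pos hi, if_pos hi, Finset.mul_sum]
      unfold blk
      rw [Finset.sum_filter]
      apply Finset.sum_congr rfl
      intro l _
      by_cases hl : β l = β i
      · rw [if_pos hl, if_pos ⟨hi, hl⟩, avg_const a hl]
      · rw [if_neg hl, if_neg fun h => hl h.2]
    · rw [if_neg hi, if_neg hi, zero_mul]
      symm
      apply Finset.sum_eq_zero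
      intro l _
      rw [if_neg fun h => hi h.1]
  rw [Finset.sum_congr rfl fun i _ => h1 i, Finset.sum_comm]
  apply Finset.sum_congr rfl
  intro l _
  by_cases hl : β l ≠ 0
  · rw [if_pos hl]
    have h2 : ∀ i, (if i ∈ RS β ∧ β l = β i then avg β univ a l * x l else 0) =
        if i = rep β l then avg β univ a l * x l else 0 := by
      intro i
      have e : (i ∈ RS β ∧ β l = β i) ↔ i = rep β l := by
        rw [mem_RS]
        constructor
        · rintro ⟨⟨_, h3⟩, h4⟩
          rw [← h3, rep_congr h4]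
        · rintro rfl
          refine ⟨⟨by rw [rep_blk β l]; exact hl, rep_congr (rep_blk β l)⟩, (rep_blk β l).symm⟩
      simp only [e]
    rw [Finset.sum_congr rfl fun i _ => h2 i, Finset.sum_ite_eq' Finset.univ (rep β l)
      (fun _ => avg β univ a l * x l), if_pos (Finset.mem_univ _)]
  · rw [if_neg hl, zero_mul]
    apply Finset.sum_eq_zero
    intro i _
    rw [if_neg]
    rintro ⟨h3, h4⟩
    exact hl (by rw [h4]; exact (mem_RS.1 h3).1)

theorem LZ_sub {n : ℕ} (β : Fin n → ℕ) (v w : Fin n → ℝ) (i : Fin n) :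
    LZ β (fun i => v i - w i) i = LZ β v i - LZ β w i := by
  unfold LZ
  split_ifs
  · rw [avg_sub]
  · ring

theorem ulc_zz {n : ℕ} {β : Fin n → ℕ} {μ : Measure (Fin n → ℝ)} (h : BX β μ) :
    ULC (μ.map (zz β)) := by
  classical
  have hl := lc_map h.lc (zz_cont β).measurable (zz_lin β)
  refine ⟨hl.prob, hl.lc, ?_⟩
  intro ε
  set δ : ℕ → Bool := fun b => if b = 0 then true else
    if hb : ∃ i, β i = b then ε (rep β (Classical.choose hb)) else true with hδ
  have h0 : δ 0 = true := by simp [hδ]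
  have h1 : ∀ i ∈ RS β, δ (β i) = ε i := by
    intro i hi
    rw [mem_RS] at hi
    have hb : ∃ j, β j = β i := ⟨i, rfl⟩
    simp only [hδ]
    rw [if_neg hi.1, dif_pos hb, rep_congr (Classical.choose_spec hb), hi.2]
  have hm1 : Measurable (fun (x : Fin n → ℝ) (i : Fin n) => sg (ε i) * x i) :=
    (sgn_cont ε).measurable
  have hm2 : Measurable (fun (x : Fin n → ℝ) i => sg (δ (β i)) * x i) := by fun_prop
  rw [Measure.map_map hm1 (zz_cont β).measurable]
  conv_rhs => rw [← h.flip δ h0, Measure.map_map (zz_cont β).measurable hm2]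
  congr 1
  funext x i
  simp only [Function.comp_apply]
  unfold zz
  by_cases hi : i ∈ RS β
  · rw [if_pos hi, if_pos hi, ← h1 i hi, Finset.mul_sum]
    apply Finset.sum_congr rfl
    intro l hl
    change sg (δ (β i)) * x l = sg (δ (β l)) * x l
    rw [(mem_blk.1 hl).2]
  · rw [if_neg hi, if_neg hi, mul_zero]

/-- all blocks are flipped, except block `0` -/
def d0 (b : ℕ) : Bool := b == 0

theorem d0_zero : d0 0 = true := rfl

theorem sg_d0 (b : ℕ) : sg (d0 b) = if b ≠ 0 then -1 else 1 := by
  unfold d0 sg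
  by_cases h : b = 0
  · simp [h]
  · simp [h]

theorem half_bound {n : ℕ} {β : Fin n → ℕ} {V : Finset (Fin n → ℝ)} (hV : V.Nonempty)
    (x : Fin n → ℝ) {v w : Fin n → ℝ} (hv : v ∈ V) (hw : w ∈ V) :
    (∑ i, (if β i ≠ 0 then avg β univ v i - avg β univ w i else 0) * x i ≤
      1 / 2 * Sup (V.image (avg β univ)) (hV.image _) x +
      1 / 2 * Sup (V.image (avg β univ)) (hV.image _) (fun i => sg (d0 (β i)) * x i)) ∧
    (∑ i, (if β i ≠ 0 then 0 else avg β univ v i - avg β univ w i) * x i ≤
      1 / 2 * Sup (V.image (avg β univ)) (hV.image _) x +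
      1 / 2 * Sup (V.image (avg β univ)) (hV.image _) (fun i => sg (d0 (β i)) * x i)) := by
  classical
  have hv' := Finset.mem_image_of_mem (avg β univ) hv
  have hw' := Finset.mem_image_of_mem (avg β univ) hw
  have h1 := le_Sup (hV.image (avg β univ)) x hv' hw'
  have h2 := le_Sup (hV.image (avg β univ)) (fun i => sg (d0 (β i)) * x i) hv' hw'
  have h3 := le_Sup (hV.image (avg β univ)) (fun i => sg (d0 (β i)) * x i) hw' hv'
  constructor
  · have e : ∑ i, (if β i ≠ 0 then avg β univ v i - avg β univ w i else 0) * x i =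
        1 / 2 * ∑ i, (avg β univ v i - avg β univ w i) * x i +
        1 / 2 * ∑ i, (avg β univ w i - avg β univ v i) * (sg (d0 (β i)) * x i) := by
      rw [Finset.mul_sum, Finset.mul_sum, ← Finset.sum_add_distrib]
      apply Finset.sum_congr rfl
      intro i _
      rw [sg_d0]
      split_ifs <;> ring
    rw [e]
    linarith
  · have e : ∑ i, (if β i ≠ 0 then 0 else avg β univ v i - avg β univ w i) * x i =
        1 / 2 * ∑ i, (avg β univ v i - avg β univ w i) * x i +
        1 / 2 * ∑ i, (avg β univ v i - avg β univ w i) * (sg (d0 (β i)) * x i) := by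
      rw [Finset.mul_sum, Finset.mul_sum, ← Finset.sum_add_distrib]
      apply Finset.sum_congr rfl
      intro i _
      rw [sg_d0]
      split_ifs <;> ring
    rw [e]
    linarith

theorem half_int {n : ℕ} {β : Fin n → ℕ} {μ : Measure (Fin n → ℝ)} (h : BX β μ)
    {V : Finset (Fin n → ℝ)} (hV : V.Nonempty) :
    Integrable (fun x => 1 / 2 * Sup (V.image (avg β univ)) (hV.image _) x +
      1 / 2 * Sup (V.image (avg β univ)) (hV.image _) (fun i => sg (d0 (β i)) * x i)) μ ∧
    ∫ x, (1 / 2 * Sup (V.image (avg β univ)) (hV.image _) x +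
      1 / 2 * Sup (V.image (avg β univ)) (hV.image _) (fun i => sg (d0 (β i)) * x i)) ∂μ ≤
      ∫ x, Sup V hV x ∂μ := by
  have h1 := int_Sup_flip h d0_zero (hV.image (avg β univ))
  have h2 := x27_Sup_int h.lc (hV.image (avg β univ))
  refine ⟨(h2.const_mul _).add (h1.1.const_mul _), ?_⟩
  rw [integral_add (h2.const_mul _) (h1.1.const_mul _), integral_const_mul, integral_const_mul,
    h1.2]
  have h3 := int_Sup_avg h univ hV
  linarith

theorem int_Sup_LZ {n : ℕ} {β : Fin n → ℕ} {μ : Measure (Fin n → ℝ)} (h : BX β μ)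
    {V : Finset (Fin n → ℝ)} (hV : V.Nonempty) :
    ∫ y, Sup (V.image (LZ β)) (hV.image _) y ∂(μ.map (zz β)) ≤ ∫ x, Sup V hV x ∂μ := by
  rw [integral_map (zz_cont β).measurable.aemeasurable (Sup_cont _).aestronglyMeasurable]
  have h1 : ∀ x, Sup (V.image (LZ β)) (hV.image _) (zz β x) ≤
      1 / 2 * Sup (V.image (avg β univ)) (hV.image _) x +
      1 / 2 * Sup (V.image (avg β univ)) (hV.image _) (fun i => sg (d0 (β i)) * x i) := by
    intro x
    apply Sup_le
    intro v' hv' w' hw'
    obtain ⟨v, hv, rfl⟩ := Finset.mem_image.1 hv'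
    obtain ⟨w, hw, rfl⟩ := Finset.mem_image.1 hw'
    have e1 := zz_sum β (fun i => v i - w i) x
    rw [one_mul] at e1
    have e2 : ∑ i, (LZ β v i - LZ β w i) * zz β x i =
        ∑ i, (if β i ≠ 0 then avg β univ v i - avg β univ w i else 0) * x i := by
      rw [Finset.sum_congr rfl fun i _ => by rw [← LZ_sub], e1]
      apply Finset.sum_congr rfl
      intro i _
      rw [avg_sub]
    rw [e2]
    exact (half_bound hV x hv hw).1
  have h4 : Integrable (fun x => Sup (V.image (LZ β)) (hV.image _) (zz β x)) μ :=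
    (x27_Sup_int (lc_of_ulc (ulc_zz h)) (hV.image (LZ β))).comp_measurable
      (zz_cont β).measurable
  exact (integral_mono h4 (half_int h hV).1 h1).trans (half_int h hV).2

/-- the block `0` part -/
theorem int_zero {n : ℕ} {β : Fin n → ℕ} {μ : Measure (Fin n → ℝ)} (h : BX β μ)
    {V : Finset (Fin n → ℝ)} (hV : V.Nonempty) {v w : Fin n → ℝ} (hv : v ∈ V) (hw : w ∈ V) :
    nr μ 1 (fun i => if β i ≠ 0 then 0 else avg β univ v i - avg β univ w i) ≤
      ∫ x, Sup V hV x ∂μ := by
  rw [nr_one h.lc]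
  refine (integral_mono (x27_lin h.lc _).abs (half_int h hV).1 fun x => ?_).trans
    (half_int h hV).2
  apply abs_le.2
  constructor
  · have h1 := (half_bound (β := β) hV x hw hv).2
    have e : ∑ i, (if β i ≠ 0 then 0 else avg β univ w i - avg β univ v i) * x i =
        -∑ i, (if β i ≠ 0 then 0 else avg β univ v i - avg β univ w i) * x i := by
      rw [← Finset.sum_neg_distrib]
      apply Finset.sum_congr rfl
      intro i _
      split_ifs <;> ring
    rw [e] at h1
    linarith
  · exact (half_bound (β := β) hV x hv hw).2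

end Pool.Agent.H21.SX
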