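import Mathlib

/-! Separated sets for several pseudo-metrics, and separated sets on the line. -/

set_option autoImplicit false

namespace Pool.Agent.H21.SX

theorem net {α : Type*} (V : Finset α) (d : α → α → ℝ) {r : ℝ}
    (h0 : ∀ v, d v v < r) (hs : ∀ v w, d v w = d w v) :
    ∃ N : Finset α, N ⊆ V ∧ (∀ v ∈ N, ∀ w ∈ N, v ≠ w → r ≤ d v w) ∧
      ∀ v ∈ V, ∃ c ∈ N, d v c < r := by
  classical
  induction V using Finset.induction_on with
  | empty =>
    exact ⟨∅, Finset.Subset.refl _, fun v hv => absurd hv (Finset.notMem_empty v),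
      fun v hv => absurd hv (Finset.notMem_empty v)⟩
  | insert a V ha ih =>
    obtain ⟨N, h1, h2, h3⟩ := ih
    by_cases hc : ∃ c ∈ N, d a c < r
    · refine ⟨N, h1.trans (Finset.subset_insert _ _), h2, ?_⟩
      intro v hv
      rcases Finset.mem_insert.1 hv with rfl | hv
      · exact hc
      · exact h3 v hv
    · push Not at hc
      refine ⟨insert a N, Finset.insert_subset_insert _ h1, ?_, ?_⟩
      · intro v hv w hw hvw
        rcases Finset.mem_insert.1 hv with hv1 | hv1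
        · rcases Finset.mem_insert.1 hw with hw1 | hw1
          · exact absurd (hv1.trans hw1.symm) hvw
          · rw [hv1]
            exact hc w hw1
        · rcases Finset.mem_insert.1 hw with hw1 | hw1
          · rw [hs, hw1]
            exact hc v hv1
          · exact h2 v hv1 w hw1 hvw
      · intro v hv
        rcases Finset.mem_insert.1 hv with rfl | hv
        · exact ⟨_, Finset.mem_insert_self _ _, h0 _⟩
        · obtain ⟨c, hc1, hc2⟩ := h3 v hv
          exact ⟨c, Finset.mem_insert_of_mem hc1, hc2⟩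

theorem cover {α : Type*} (V : Finset α) {m : ℕ} (d : Fin m → α → α → ℝ) {r : ℝ}
    (h0 : ∀ j v, d j v v < r) (hs : ∀ j v w, d j v w = d j w v)
    (ht : ∀ j v w z, d j v z ≤ d j v w + d j w z)
    (hsep : ∀ v ∈ V, ∀ w ∈ V, v ≠ w → ∃ j, 2 * r ≤ d j v w) :
    ∃ N : Fin m → Finset α, (∀ j, N j ⊆ V) ∧
      (∀ j, ∀ v ∈ N j, ∀ w ∈ N j, v ≠ w → r ≤ d j v w) ∧ V.card ≤ ∏ j, (N j).card := by
  classical
  have h1 : ∀ j, ∃ N : Finset α, N ⊆ V ∧ (∀ v ∈ N, ∀ w ∈ N, v ≠ w → r ≤ d j v w) ∧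
      ∀ v ∈ V, ∃ c ∈ N, d j v c < r := fun j => net V (d j) (h0 j) (hs j)
  choose N hN1 hN2 hN3 using h1
  refine ⟨N, hN1, hN2, ?_⟩
  choose! c hc1 hc2 using hN3
  rw [← Fintype.card_piFinset]
  apply Finset.card_le_card_of_injOn (fun v j => c j v)
  · intro v hv
    exact Finset.mem_coe.2 (Fintype.mem_piFinset.2 fun j => hc1 j v (Finset.mem_coe.1 hv))
  · intro v hv w hw hvw
    by_contra hne
    obtain ⟨j, hj⟩ := hsep v (Finset.mem_coe.1 hv) w (Finset.mem_coe.1 hw) hne
    have e : c j v = c j w := congrFun hvw j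
    have h2 := hc2 j v (Finset.mem_coe.1 hv)
    have h3 := hc2 j w (Finset.mem_coe.1 hw)
    have h4 := ht j v (c j v) w
    rw [e] at h2 h4
    rw [hs j (c j w) w] at h4
    linarith

theorem cover_exp {α : Type*} (V : Finset α) (hV : V.Nonempty) {m : ℕ} (hm : 0 < m)
    (d : Fin m → α → α → ℝ) {r : ℝ}
    (h0 : ∀ j v, d j v v < r) (hs : ∀ j v w, d j v w = d j w v)
    (ht : ∀ j v w z, d j v z ≤ d j v w + d j w z)
    (hsep : ∀ v ∈ V, ∀ w ∈ V, v ≠ w → ∃ j, 2 * r ≤ d j v w) {p : ℝ}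
    (hp : Real.exp p ≤ V.card) :
    ∃ j, ∃ N : Finset α, N.Nonempty ∧ N ⊆ V ∧
      (∀ v ∈ N, ∀ w ∈ N, v ≠ w → r ≤ d j v w) ∧ Real.exp (p / m) ≤ N.card := by
  obtain ⟨N, h1, h2, h3⟩ := cover V d h0 hs ht hsep
  haveI : Nonempty (Fin m) := ⟨⟨0, hm⟩⟩
  obtain ⟨j, _, hj⟩ := Finset.exists_max_image Finset.univ (fun j => (N j).card)
    Finset.univ_nonempty
  have h4 : V.card ≤ (N j).card ^ m := by
    refine h3.trans ?_
    have := Finset.prod_le_pow_card Finset.univ (fun j => (N j).card) (N j).card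
      (fun k hk => hj k hk)
    simpa using this
  have h5 : Real.exp (p / m) ≤ (N j).card := by
    by_contra hlt
    push Not at hlt
    have h6 : ((N j).card : ℝ) ^ m < Real.exp (p / m) ^ m :=
      pow_lt_pow_left₀ hlt (by positivity) hm.ne'
    rw [← Real.exp_nat_mul, mul_div_cancel₀ p (by exact_mod_cast hm.ne')] at h6
    have h7 : (V.card : ℝ) ≤ ((N j).card : ℝ) ^ m := by exact_mod_cast h4
    linarith
  refine ⟨j, N j, ?_, h1 j, h2 j, h5⟩
  rw [← Finset.card_pos]
  have : (0 : ℝ) < (N j).card := lt_of_lt_of_le (Real.exp_pos _) h5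
  exact_mod_cast this

/-- separated sets on the line are long -/
theorem gap {α : Type*} (V : Finset α) (hV : V.Nonempty) (m : α → ℝ) {g : ℝ} (hg : 0 < g)
    (hsep : ∀ v ∈ V, ∀ w ∈ V, v ≠ w → g ≤ |m v - m w|) :
    ∃ v ∈ V, ∃ w ∈ V, ((V.card : ℝ) - 1) * g ≤ m v - m w := by
  obtain ⟨w, hw, hw'⟩ := Finset.exists_min_image V m hV
  obtain ⟨v, hv, hv'⟩ := Finset.exists_max_image V m hV
  refine ⟨v, hv, w, hw, ?_⟩
  have h1 : V.card ≤ (Finset.range (⌊(m v - m w) / g⌋₊ + 1)).card := by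
    apply Finset.card_le_card_of_injOn (fun u => ⌊(m u - m w) / g⌋₊)
    · intro u hu
      have hu' := Finset.mem_coe.1 hu
      apply Finset.mem_coe.2
      rw [Finset.mem_range]
      apply Nat.lt_succ_of_le
      apply Nat.floor_le_floor
      apply div_le_div_of_nonneg_right _ hg.le
      linarith [hv' u hu']
    · intro u hu u' hu' he
      by_contra hne
      have h2 := hsep u (Finset.mem_coe.1 hu) u' (Finset.mem_coe.1 hu') hne
      have e : ⌊(m u - m w) / g⌋₊ = ⌊(m u' - m w) / g⌋₊ := he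
      have a0 : 0 ≤ (m u - m w) / g :=
        div_nonneg (by linarith [hw' u (Finset.mem_coe.1 hu)]) hg.le
      have b0 : 0 ≤ (m u' - m w) / g :=
        div_nonneg (by linarith [hw' u' (Finset.mem_coe.1 hu')]) hg.le
      have a1 := Nat.floor_le a0
      have a2 := Nat.lt_floor_add_one ((m u - m w) / g)
      have b1 := Nat.floor_le b0
      have b2 := Nat.lt_floor_add_one ((m u' - m w) / g)
      rw [e] at a1 a2
      have h3 : |(m u - m w) / g - (m u' - m w) / g| < 1 := by
        rw [abs_lt]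
        constructor <;> linarith
      rw [← sub_div, abs_div, abs_of_pos hg, div_lt_one hg] at h3
      have h4 : m u - m w - (m u' - m w) = m u - m u' := by ring
      rw [h4] at h3
      linarith
  rw [Finset.card_range] at h1
  have h2 : (0 : ℝ) ≤ (m v - m w) / g := div_nonneg (by linarith [hv' w hw]) hg.le
  have h3 := Nat.floor_le h2
  have h4 : (V.card : ℝ) ≤ (⌊(m v - m w) / g⌋₊ : ℝ) + 1 := by exact_mod_cast h1
  have h5 : (V.card : ℝ) - 1 ≤ (m v - m w) / g := by linarith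
  rwa [le_div_iff₀ hg] at h5

end Pool.Agent.H21.SX
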