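import Pool.Agent.H21.SX.Norm

/-! Existence of three pairings which cover all blocks with at least two elements. -/

set_option autoImplicit false

open MeasureTheory Finset Set
open scoped ENNReal

namespace Pool.Agent.H21.SX

open Pool.Agent.H57.SM

theorem exists_pair_aux {n : ℕ} {β : Fin n → ℕ} {A₀ : Finset (Fin n)}
    (hA : ∀ i ∈ A₀, (blk β A₀ i).card ≤ (blk β A₀ᶜ i).card) :
    ∀ A : Finset (Fin n), A ⊆ A₀ → ∃ τ : Equiv.Perm (Fin n), (∀ i, τ (τ i) = i) ∧
      (∀ i, β (τ i) = β i) ∧ (∀ i ∈ A, τ i ∉ A₀) ∧ ∀ i, i ∉ A → τ i ∉ A → τ i = i := by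
  classical
  intro A
  induction A using Finset.induction_on with
  | empty =>
    intro _
    exact ⟨1, fun i => rfl, fun i => rfl, fun i hi => absurd hi (Finset.notMem_empty i),
      fun i _ _ => rfl⟩
  | insert i A hiA ih =>
    intro hsub
    have hi0 : i ∈ A₀ := hsub (Finset.mem_insert_self i A)
    have hA0 : A ⊆ A₀ := fun k hk => hsub (Finset.mem_insert_of_mem hk)
    obtain ⟨τ, hinv, hblk, hoff, hfix⟩ := ih hA0
    set T : Finset (Fin n) := (blk β A₀ᶜ i).filter (fun j => τ j ∈ A) with hT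
    have h1 : T.card ≤ (blk β A i).card := by
      apply Finset.card_le_card_of_injOn τ
      · intro j hj
        have hj' := Finset.mem_filter.1 (Finset.mem_coe.1 hj)
        exact Finset.mem_coe.2 (mem_blk.2 ⟨hj'.2, by rw [hblk, (mem_blk.1 hj'.1).2]⟩)
      · intro a _ b _ hab
        exact τ.injective hab
    have h2 : (blk β A i).card < (blk β A₀ i).card := by
      apply Finset.card_lt_card
      rw [Finset.ssubset_iff_of_subset]
      · exact ⟨i, self_blk hi0, fun h => hiA (mem_blk.1 h).1⟩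
      · intro l hl
        rw [mem_blk] at *
        exact ⟨hA0 hl.1, hl.2⟩
    have h3 : T.card < (blk β A₀ᶜ i).card := by
      have := hA i hi0
      omega
    obtain ⟨j, hj1, hj2⟩ := Finset.exists_mem_notMem_of_card_lt_card h3
    have hj1' := mem_blk.1 hj1
    have hjA0 : j ∉ A₀ := Finset.mem_compl.1 hj1'.1
    have hjA : j ∉ A := fun h => hjA0 (hA0 h)
    have hτj' : τ j ∉ A := fun h => hj2 (Finset.mem_filter.2 ⟨hj1, h⟩)
    have hτj : τ j = j := hfix j hjA hτj'
    have hτi : τ i = i := by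
      apply hfix i hiA
      intro h
      have := hoff _ h
      rw [hinv] at this
      exact this hi0
    have hij : i ≠ j := by
      rintro rfl
      exact hjA0 hi0
    have ei : (Equiv.swap i j * τ) i = j := by
      rw [Equiv.Perm.mul_apply, hτi, Equiv.swap_apply_left]
    have ej : (Equiv.swap i j * τ) j = i := by
      rw [Equiv.Perm.mul_apply, hτj, Equiv.swap_apply_right]
    have ek : ∀ k, k ≠ i → k ≠ j → (Equiv.swap i j * τ) k = τ k ∧ τ k ≠ i ∧ τ k ≠ j := by
      intro k hki hkj
      have h4 : τ k ≠ i := by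
        intro h
        apply hki
        rw [← hinv k, h, hτi]
      have h5 : τ k ≠ j := by
        intro h
        apply hkj
        rw [← hinv k, h, hτj]
      exact ⟨by rw [Equiv.Perm.mul_apply, Equiv.swap_apply_of_ne_of_ne h4 h5], h4, h5⟩
    refine ⟨Equiv.swap i j * τ, ?_, ?_, ?_, ?_⟩
    · intro k
      rcases eq_or_ne k i with h | hki
      · rw [h, ei, ej]
      · rcases eq_or_ne k j with h | hkj
        · rw [h, ej, ei]
        · obtain ⟨h4, h5, h6⟩ := ek k hki hkj
          rw [h4, (ek _ h5 h6).1, hinv]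
    · intro k
      rcases eq_or_ne k i with h | hki
      · rw [h, ei, hj1'.2]
      · rcases eq_or_ne k j with h | hkj
        · rw [h, ej, hj1'.2]
        · rw [(ek k hki hkj).1, hblk]
    · intro k hk
      rcases Finset.mem_insert.1 hk with h | h
      · rw [h, ei]
        exact hjA0
      · have hki : k ≠ i := by rintro rfl; exact hiA h
        have hkj : k ≠ j := by rintro rfl; exact hjA h
        rw [(ek k hki hkj).1]
        exact hoff k h
    · intro k hk hk'
      have hki : k ≠ i := by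
        rintro rfl
        exact hk (Finset.mem_insert_self _ _)
      rcases eq_or_ne k j with h | hkj
      · exfalso
        apply hk'
        rw [h, ej]
        exact Finset.mem_insert_self _ _
      · rw [(ek k hki hkj).1] at hk' ⊢
        exact hfix k (fun h => hk (Finset.mem_insert_of_mem h))
          (fun h => hk' (Finset.mem_insert_of_mem h))

theorem exists_pair {n : ℕ} {β : Fin n → ℕ} {A₀ : Finset (Fin n)}
    (hA : ∀ i ∈ A₀, (blk β A₀ i).card ≤ (blk β A₀ᶜ i).card) :
    ∃ τ : Equiv.Perm (Fin n), Pr β A₀ τ := by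
  obtain ⟨τ, h1, h2, h3, h4⟩ := exists_pair_aux hA A₀ (Finset.Subset.refl _)
  exact ⟨τ, h1, h2, h3, h4⟩

/-- pairing for a family of subsets of the blocks -/
theorem exists_pair_of {n : ℕ} {β : Fin n → ℕ} (s : ℕ → Finset (Fin n))
    (hs : ∀ b, ∀ l ∈ s b, β l = b)
    (hc : ∀ i, 2 * (s (β i)).card ≤ (blk β univ i).card) :
    ∃ τ : Equiv.Perm (Fin n), Pr β (univ.filter fun i => i ∈ s (β i)) τ := by
  classical
  apply exists_pair
  intro i _
  set A₀ : Finset (Fin n) := univ.filter fun i => i ∈ s (β i) with hA₀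
  have h1 : blk β A₀ i = s (β i) := by
    ext l
    rw [mem_blk, hA₀, Finset.mem_filter]
    constructor
    · rintro ⟨⟨_, h2⟩, h3⟩
      rwa [h3] at h2
    · intro h2
      have h3 := hs _ l h2
      exact ⟨⟨Finset.mem_univ _, by rwa [h3]⟩, h3⟩
  have h2 := card_blk_univ β A₀ i
  have h3 : (blk β univ i).card = (blk β A₀ i).card + (blk β A₀ᶜ i).card := by exact_mod_cast h2
  have h4 := hc i
  rw [← h1] at h4
  omega

theorem exists_three {n : ℕ} (β : Fin n → ℕ) :
    ∃ (A : Fin 3 → Finset (Fin n)) (τ : Fin 3 → Equiv.Perm (Fin n)), (∀ j, Pr β (A j) (τ j)) ∧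
      ∀ i, (∑ j, if i ∈ A j then (1 : ℝ) else 0) = 1 ∨ (blk β univ i).card = 1 := by
  classical
  set B : ℕ → Finset (Fin n) := fun b => univ.filter fun i => β i = b with hB
  have hBm : ∀ b l, l ∈ B b ↔ β l = b := by
    intro b l
    simp [hB]
  have hBblk : ∀ i, blk β univ i = B (β i) := by
    intro i
    ext l
    rw [mem_blk, hBm]
    simp
  have h1 : ∀ b, ∃ t, t ⊆ B b ∧ t.card = (B b).card / 2 := fun b =>
    Finset.exists_subset_card_eq (Nat.div_le_self _ _)
  choose s1 hs1 hc1 using h1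
  have h2 : ∀ b, ∃ t, t ⊆ B b \ s1 b ∧ t.card = (B b).card / 2 := by
    intro b
    apply Finset.exists_subset_card_eq
    rw [Finset.card_sdiff_of_subset (hs1 b), hc1 b]
    omega
  choose s2 hs2 hc2 using h2
  set s3 : ℕ → Finset (Fin n) := fun b =>
    if 2 ≤ (B b).card then (B b \ s1 b) \ s2 b else ∅ with hs3
  have hc3 : ∀ b, 2 * (s3 b).card ≤ (B b).card := by
    intro b
    simp only [hs3]
    split_ifs with h
    · rw [Finset.card_sdiff_of_subset (hs2 b), Finset.card_sdiff_of_subset (hs1 b), hc1, hc2]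
      omega
    · simp
  obtain ⟨τ1, hτ1⟩ := exists_pair_of (β := β) s1 (fun b l hl => (hBm b l).1 (hs1 b hl)) (by
    intro i
    rw [hBblk, hc1]
    omega)
  obtain ⟨τ2, hτ2⟩ := exists_pair_of (β := β) s2 (fun b l hl =>
    (hBm b l).1 (Finset.mem_sdiff.1 (hs2 b hl)).1) (by
    intro i
    rw [hBblk, hc2]
    omega)
  obtain ⟨τ3, hτ3⟩ := exists_pair_of (β := β) s3 (fun b l hl => by
    simp only [hs3] at hl
    split_ifs at hl with h
    · exact (hBm b l).1 (Finset.mem_sdiff.1 (Finset.mem_sdiff.1 hl).1).1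
    · exact absurd hl (Finset.notMem_empty l)) (by
    intro i
    rw [hBblk]
    exact hc3 _)
  refine ⟨![univ.filter fun i => i ∈ s1 (β i), univ.filter fun i => i ∈ s2 (β i),
    univ.filter fun i => i ∈ s3 (β i)], ![τ1, τ2, τ3], ?_, ?_⟩
  · intro j
    fin_cases j
    · exact hτ1
    · exact hτ2
    · exact hτ3
  · intro i
    have hiB : i ∈ B (β i) := (hBm _ _).2 rfl
    by_cases hc : 2 ≤ (B (β i)).card
    · left
      rw [Fin.sum_univ_three]
      simp only [Matrix.cons_val_zero, Matrix.cons_val_one, Matrix.cons_val_two,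
        Matrix.head_cons, Matrix.tail_cons, Matrix.cons_val, Finset.mem_filter,
        Finset.mem_univ, true_and]
      have e3 : i ∈ s3 (β i) ↔ (i ∉ s1 (β i) ∧ i ∉ s2 (β i)) := by
        simp only [hs3, if_pos hc, Finset.mem_sdiff]
        tauto
      have e2 : i ∈ s2 (β i) → i ∉ s1 (β i) := fun h => (Finset.mem_sdiff.1 (hs2 _ h)).2
      by_cases h1 : i ∈ s1 (β i)
      · have h2 : i ∉ s2 (β i) := fun h => e2 h h1
        have h3 : i ∉ s3 (β i) := fun h => (e3.1 h).1 h1
        rw [if_pos h1, if_neg h2, if_neg h3]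
        norm_num
      · by_cases h2 : i ∈ s2 (β i)
        · have h3 : i ∉ s3 (β i) := fun h => (e3.1 h).2 h2
          rw [if_neg h1, if_pos h2, if_neg h3]
          norm_num
        · have h3 : i ∈ s3 (β i) := e3.2 ⟨h1, h2⟩
          rw [if_neg h1, if_neg h2, if_pos h3]
          norm_num
    · right
      rw [hBblk]
      have : 0 < (B (β i)).card := Finset.card_pos.2 ⟨i, hiB⟩
      omega

end Pool.Agent.H21.SX
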