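import Pool.Agent.H21.SX.Blocks
import Pool.Agent.H21.SX.Cover
import Pool.Agent.H57.SM.Final

/-! Sudakov minoration for laws invariant under permutations inside blocks. -/

set_option autoImplicit false

open MeasureTheory Finset Set
open scoped ENNReal

namespace Pool.Agent.H21.SX

open Pool.Agent.H57.SM

theorem nr_zero {n : ℕ} (μ : Measure (Fin n → ℝ)) (p : ℝ) : nr μ p (fun _ => 0) = 0 := by
  have h := nr_smul μ p 0 (fun _ => 0)
  simpa using h

theorem nr_symm {n : ℕ} (μ : Measure (Fin n → ℝ)) (p : ℝ) (v w : Fin n → ℝ) :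
    nr μ p (fun i => v i - w i) = nr μ p (fun i => w i - v i) := by
  have h := nr_smul μ p (-1) (fun i => w i - v i)
  simp only [abs_neg, abs_one, one_mul] at h
  rw [← h]
  congr 1
  funext i
  ring

/-- an unconditional vector which is dominated by `X` gives the minoration -/
theorem part_ulc {n : ℕ} {μ ν : Measure (Fin n → ℝ)} (hU : ULC ν) {V N : Finset (Fin n → ℝ)}
    (hV : V.Nonempty) (hN : N.Nonempty) (hNV : N ⊆ V) (L : (Fin n → ℝ) → Fin n → ℝ)
    (hL : ∀ v w i, L (fun i => v i - w i) i = L v i - L w i)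
    (hS : ∫ y, Sup (V.image L) (hV.image _) y ∂ν ≤ ∫ x, Sup V hV x ∂μ) {p r : ℝ} (hp : 5 ≤ p)
    (hr : 0 < r)
    (hsep : ∀ v ∈ N, ∀ w ∈ N, v ≠ w → r ≤ nr ν p (L fun i => v i - w i))
    (hcard : Real.exp (p / 5) ≤ N.card) :
    r / 200 / 10 ^ 12 ≤ ∫ x, Sup V hV x ∂μ := by
  classical
  have hl := lc_of_ulc hU
  have hinj : Set.InjOn L (N : Set (Fin n → ℝ)) := by
    intro v hv w hw hvw
    by_contra hne
    have h1 := hsep v (Finset.mem_coe.1 hv) w (Finset.mem_coe.1 hw) hne
    have h2 : (L fun i => v i - w i) = fun _ => 0 := by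
      funext i
      rw [hL, hvw, sub_self]
    rw [h2, nr_zero] at h1
    linarith
  have h3 := ulc_smp hU (p := p / 5) (A := r / 200) (by linarith) (by positivity) (N.image L)
    (hN.image _) (by
      intro v' hv' w' hw' hvw
      obtain ⟨v, hv, rfl⟩ := Finset.mem_image.1 hv'
      obtain ⟨w, hw, rfl⟩ := Finset.mem_image.1 hw'
      have hne : v ≠ w := fun e => hvw (by rw [e])
      rw [ofReal_le_nrm hl (by linarith)]
      have h4 := hsep v hv w hw hne
      have e : (L fun i => v i - w i) = fun i => L v i - L w i := by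
        funext i
        exact hL v w i
      rw [e] at h4
      have h5 := nr_mom hl (p := p) (q := p / 5) (by linarith) (by linarith)
        (fun i => L v i - L w i)
      have h6 : 40 * p / (p / 5) = 200 := by
        field_simp
        norm_num
      rw [h6] at h5
      linarith)
    (by rw [Finset.card_image_of_injOn hinj]; exact hcard)
  refine h3.trans (le_trans ?_ hS)
  apply integral_mono (x27_Sup_int hl _) (x27_Sup_int hl _)
  intro x
  exact Sup_mono_set _ _ (Finset.image_subset_image hNV) x

/-- the one-dimensional part -/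
theorem part_line {n : ℕ} {β : Fin n → ℕ} {μ : Measure (Fin n → ℝ)} (h : BX β μ)
    {V N : Finset (Fin n → ℝ)}
    (hV : V.Nonempty) (hN : N.Nonempty) (hNV : N ⊆ V) {p r : ℝ} (hp : 5 ≤ p)
    (hr : 0 < r)
    (hsep : ∀ v ∈ N, ∀ w ∈ N, v ≠ w →
      r ≤ nr μ p (fun i => if β i ≠ 0 then 0 else avg β univ v i - avg β univ w i))
    (hcard : Real.exp (p / 5) ≤ N.card) :
    r / 200 ≤ ∫ x, Sup V hV x ∂μ := by
  classical
  set e : Fin n → ℝ := fun i => if β i ≠ 0 then 0 else 1 with he
  -- block mean of block 0
  have hm : ∃ m : (Fin n → ℝ) → ℝ, ∀ v w : Fin n → ℝ,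
      (fun i => if β i ≠ 0 then 0 else avg β univ v i - avg β univ w i) =
        fun i => (m v - m w) * e i := by
    by_cases h0 : ∃ i, β i = 0
    · obtain ⟨i0, hi0⟩ := h0
      refine ⟨fun v => avg β univ v i0, fun v w => ?_⟩
      funext i
      rw [he]
      simp only []
      split_ifs with hi
      · ring
      · have hi' : β i = 0 := not_not.1 hi
        rw [avg_const v (hi'.trans hi0.symm), avg_const w (hi'.trans hi0.symm)]
        ring
    · refine ⟨fun _ => 0, fun v w => ?_⟩
      funext i
      rw [if_pos fun h1 => h0 ⟨i, h1⟩]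
      ring
  obtain ⟨m, hm⟩ := hm
  have hne1 : 1 < N.card := by
    have h1 : (1 : ℝ) < N.card := by
      have := Real.add_one_le_exp (p / 5)
      linarith
    exact_mod_cast h1
  obtain ⟨v0, hv0, w0, hw0, hvw0⟩ := Finset.one_lt_card.1 hne1
  have hN0 : 0 < nr μ p e := by
    have h1 := hsep v0 hv0 w0 hw0 hvw0
    rw [hm, nr_smul] at h1
    rcases (nr_nonneg μ p e).eq_or_lt with h2 | h2
    · rw [← h2, mul_zero] at h1
      linarith
    · exact h2
  obtain ⟨v, hv, w, hw, hvw⟩ := gap N hN m (g := r / nr μ p e) (by positivity) (by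
    intro v hv w hw hne
    have h1 := hsep v hv w hw hne
    rw [hm, nr_smul] at h1
    rwa [div_le_iff₀ hN0])
  have h2 := int_zero h hV (hNV hv) (hNV hw)
  rw [hm, nr_smul] at h2
  have h3 := nr_mom h.lc (p := p) (q := 1) le_rfl (by linarith) e
  rw [div_one] at h3
  have h4 : ((N.card : ℝ) - 1) * (r / nr μ p e) ≤ |m v - m w| := hvw.trans (le_abs_self _)
  have h5 : p / 5 ≤ (N.card : ℝ) - 1 := by
    have := Real.add_one_le_exp (p / 5)
    linarith
  have h6 : p / 5 * (r / nr μ p e) ≤ |m v - m w| :=
    (mul_le_mul_of_nonneg_right h5 (by positivity)).trans h4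
  have h7 : p / 5 * r ≤ |m v - m w| * nr μ p e := by
    have h8 := mul_le_mul_of_nonneg_right h6 hN0.le
    have e1 : p / 5 * (r / nr μ p e) * nr μ p e = p / 5 * r := by field_simp
    rwa [e1] at h8
  have h9 : |m v - m w| * nr μ p e ≤ 40 * p * (|m v - m w| * nr μ 1 e) := by
    have := mul_le_mul_of_nonneg_left h3 (abs_nonneg (m v - m w))
    linarith
  have h10 : p / 5 * r ≤ 40 * p * ∫ x, Sup V hV x ∂μ :=
    h7.trans (h9.trans (mul_le_mul_of_nonneg_left h2 (by positivity)))
  have hp0 : 0 < p := by linarith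
  have h11 : p * (r / 200) ≤ p * ∫ x, Sup V hV x ∂μ := by linarith
  exact le_of_mul_le_mul_left h11 hp0

/-- **Sudakov minoration** for laws invariant under permutations inside blocks and under changes
of signs of whole blocks (block `0` excepted). -/
theorem bx_smp {n : ℕ} {β : Fin n → ℕ} {μ : Measure (Fin n → ℝ)} (h : BX β μ) {p A : ℝ}
    (hp : 1 ≤ p) (hA : 0 < A) (V : Finset (Fin n → ℝ)) (hV : V.Nonempty)
    (hsep : ∀ v ∈ V, ∀ w ∈ V, v ≠ w → A ≤ nr μ p (fun i => v i - w i))
    (hcard : Real.exp p ≤ V.card) :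
    A / 10 ^ 17 ≤ ∫ x, Sup V hV x ∂μ := by
  classical
  have hS0 : 0 ≤ ∫ x, Sup V hV x ∂μ := integral_nonneg fun x => Sup_nonneg hV x
  rcases lt_or_ge p 5 with hp5 | hp5
  · -- small p
    have h1 : 1 < V.card := by
      have h2 : (1 : ℝ) < V.card := by
        have := Real.add_one_le_exp p
        linarith
      exact_mod_cast h2
    obtain ⟨v, hv, w, hw, hvw⟩ := Finset.one_lt_card.1 h1
    have h3 := hsep v hv w hw hvw
    have h4 := nr_mom h.lc (p := p) (q := 1) le_rfl hp (fun i => v i - w i)
    rw [div_one] at h4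
    have h5 : nr μ 1 (fun i => v i - w i) ≤ ∫ x, Sup V hV x ∂μ := by
      rw [nr_one h.lc]
      apply integral_mono (x27_lin h.lc _).abs (x27_Sup_int h.lc hV)
      intro x
      apply abs_le.2
      constructor
      · have := le_Sup hV x hw hv
        have e : ∑ i, (w i - v i) * x i = -∑ i, (v i - w i) * x i := by
          rw [← Finset.sum_neg_distrib]
          exact Finset.sum_congr rfl fun i _ => by ring
        linarith
      · exact le_Sup hV x hv hw
    have h6 : A ≤ 200 * ∫ x, Sup V hV x ∂μ := by
      have h7 : 0 ≤ nr μ 1 (fun i => v i - w i) := nr_nonneg _ _ _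
      nlinarith
    have h8 : A / 10 ^ 17 ≤ A / 200 := by
      apply div_le_div_of_nonneg_left hA.le (by norm_num) (by norm_num)
    linarith
  · obtain ⟨P, τ, hP, hcov⟩ := exists_three β
    -- five pseudo-metrics
    set d : Fin 5 → (Fin n → ℝ) → (Fin n → ℝ) → ℝ := ![
      fun v w => nr (μ.map (yy (P 0) (τ 0))) p (LL β (P 0) (τ 0) fun i => v i - w i),
      fun v w => nr (μ.map (yy (P 1) (τ 1))) p (LL β (P 1) (τ 1) fun i => v i - w i),
      fun v w => nr (μ.map (yy (P 2) (τ 2))) p (LL β (P 2) (τ 2) fun i => v i - w i),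
      fun v w => nr (μ.map (zz β)) p (LZ β fun i => v i - w i),
      fun v w => nr μ p (fun i => if β i ≠ 0 then 0 else avg β univ v i - avg β univ w i)]
      with hd
    have hUj : ∀ j, ULC (μ.map (yy (P j) (τ j))) := fun j => ulc_yy h (hP j)
    have hUz : ULC (μ.map (zz β)) := ulc_zz h
    have hp1 : 1 ≤ p := by linarith
    -- generic pseudo-metric properties
    have gen : ∀ (ν : Measure (Fin n → ℝ)) (L : (Fin n → ℝ) → Fin n → ℝ), LC ν →
        (∀ v w i, L (fun i => v i - w i) i = L v i - L w i) →
        (∀ v : Fin n → ℝ, nr ν p (L fun i => v i - v i) = 0) ∧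
        (∀ v w : Fin n → ℝ, nr ν p (L fun i => v i - w i) = nr ν p (L fun i => w i - v i)) ∧
        ∀ v w z : Fin n → ℝ, nr ν p (L fun i => v i - z i) ≤
          nr ν p (L fun i => v i - w i) + nr ν p (L fun i => w i - z i) := by
      intro ν L hν hL
      have e : ∀ v w : Fin n → ℝ, (L fun i => v i - w i) = fun i => L v i - L w i := by
        intro v w
        funext i
        exact hL v w i
      refine ⟨fun v => ?_, fun v w => ?_, fun v w z => ?_⟩
      · rw [e]
        have : (fun i => L v i - L v i) = fun _ => (0 : ℝ) := by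
          funext i
          ring
        rw [this, nr_zero]
      · rw [e, e]
        exact nr_symm ν p _ _
      · rw [e, e, e]
        have h1 := nr_add hν hp1 (fun i => L v i - L w i) (fun i => L w i - L z i)
        refine le_trans (le_of_eq ?_) h1
        congr 1
        funext i
        ring
    have hL4 : ∀ (v w : Fin n → ℝ),
        (fun i => if β i ≠ 0 then 0 else avg β univ v i - avg β univ w i) =
        (fun (u : Fin n → ℝ) (i : Fin n) => if β i ≠ 0 then 0 else avg β univ u i)
          (fun i => v i - w i) := by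
      intro v w
      funext i
      simp only []
      rw [avg_sub]
    have g0 := gen _ (LL β (P 0) (τ 0)) (lc_of_ulc (hUj 0)) (LL_sub β (P 0) (τ 0))
    have g1 := gen _ (LL β (P 1) (τ 1)) (lc_of_ulc (hUj 1)) (LL_sub β (P 1) (τ 1))
    have g2 := gen _ (LL β (P 2) (τ 2)) (lc_of_ulc (hUj 2)) (LL_sub β (P 2) (τ 2))
    have g3 := gen _ (LZ β) (lc_of_ulc hUz) (LZ_sub β)
    have g4 := gen μ (fun (u : Fin n → ℝ) (i : Fin n) => if β i ≠ 0 then 0 else avg β univ u i)
      h.lc (by
        intro v w i
        split_ifs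
        · ring
        · rw [avg_sub])
    have hd4 : ∀ v w, d 4 v w = nr μ p
        ((fun (u : Fin n → ℝ) (i : Fin n) => if β i ≠ 0 then 0 else avg β univ u i)
          (fun i => v i - w i)) := by
      intro v w
      rw [← hL4]
      rfl
    set r : ℝ := A / 40 with hr
    have hr0 : 0 < r := by positivity
    obtain ⟨j, N, hN, hNV, hNsep, hNcard⟩ := cover_exp V hV (m := 5) (by norm_num) d (r := r)
      (by
        intro j v
        fin_cases j
        · exact lt_of_eq_of_lt (g0.1 v) hr0
        · exact lt_of_eq_of_lt (g1.1 v) hr0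
        · exact lt_of_eq_of_lt (g2.1 v) hr0
        · exact lt_of_eq_of_lt (g3.1 v) hr0
        · exact lt_of_eq_of_lt ((hd4 v v).trans (g4.1 v)) hr0)
      (by
        intro j v w
        fin_cases j
        · exact g0.2.1 v w
        · exact g1.2.1 v w
        · exact g2.2.1 v w
        · exact g3.2.1 v w
        · exact (hd4 v w).trans ((g4.2.1 v w).trans (hd4 w v).symm))
      (by
        intro j v w z
        fin_cases j
        · exact g0.2.2 v w z
        · exact g1.2.2 v w z
        · exact g2.2.2 v w z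
        · exact g3.2.2 v w z
        · have := g4.2.2 v w z
          rw [← hd4, ← hd4, ← hd4] at this
          exact this)
      (by
        intro v hv w hw hvw
        by_contra hcon
        push Not at hcon
        have h1 := hsep v hv w hw hvw
        have h2 := nr_three h hP hcov hp1 (fun i => v i - w i)
        rw [Fin.sum_univ_three] at h2
        have h3 : nr μ p (avg β univ fun i => v i - w i) ≤ d 3 v w + d 4 v w := by
          have e3 : nr (μ.map (zz β)) p (LZ β fun i => v i - w i) =
              1 * nr μ p (fun i => if β i ≠ 0 then avg β univ (fun i => v i - w i) i else 0) :=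
            nr_map (zz_cont β).measurable zero_le_one (zz_sum β fun i => v i - w i)
          rw [one_mul] at e3
          have e4 : (avg β univ fun i => v i - w i) = fun i =>
              (if β i ≠ 0 then avg β univ (fun i => v i - w i) i else 0) +
              (if β i ≠ 0 then 0 else avg β univ v i - avg β univ w i) := by
            funext i
            split_ifs
            · ring
            · rw [avg_sub]; ring
          have e5 : d 3 v w = nr (μ.map (zz β)) p (LZ β fun i => v i - w i) := rfl
          rw [e4, e5, e3]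
          exact nr_add h.lc hp1 _ _
        have c0 := hcon 0
        have c1 := hcon 1
        have c2 := hcon 2
        have c3 := hcon 3
        have c4 := hcon 4
        have d0' : d 0 v w = nr (μ.map (yy (P 0) (τ 0))) p
          (LL β (P 0) (τ 0) fun i => v i - w i) := rfl
        have d1' : d 1 v w = nr (μ.map (yy (P 1) (τ 1))) p
          (LL β (P 1) (τ 1) fun i => v i - w i) := rfl
        have d2' : d 2 v w = nr (μ.map (yy (P 2) (τ 2))) p
          (LL β (P 2) (τ 2) fun i => v i - w i) := rfl
        rw [← d0', ← d1', ← d2'] at h2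
        rw [hr] at c0 c1 c2 c3 c4
        linarith)
      hcard
    have hr5 : A / 10 ^ 17 ≤ r / 200 / 10 ^ 12 := by
      rw [hr, div_div, div_div]
      apply div_le_div_of_nonneg_left hA.le (by norm_num) (by norm_num)
    have hr6 : A / 10 ^ 17 ≤ r / 200 := by
      rw [hr, div_div]
      apply div_le_div_of_nonneg_left hA.le (by norm_num) (by norm_num)
    have hNcard' : Real.exp (p / 5) ≤ N.card := by simpa using hNcard
    fin_cases j
    · exact hr5.trans (part_ulc (hUj 0) hV hN hNV _ (LL_sub β (P 0) (τ 0))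
        (int_Sup_LL h (hP 0) hV) hp5 hr0 hNsep hNcard')
    · exact hr5.trans (part_ulc (hUj 1) hV hN hNV _ (LL_sub β (P 1) (τ 1))
        (int_Sup_LL h (hP 1) hV) hp5 hr0 hNsep hNcard')
    · exact hr5.trans (part_ulc (hUj 2) hV hN hNV _ (LL_sub β (P 2) (τ 2))
        (int_Sup_LL h (hP 2) hV) hp5 hr0 hNsep hNcard')
    · exact hr5.trans (part_ulc hUz hV hN hNV _ (LZ_sub β)
        (int_Sup_LZ h hV) hp5 hr0 hNsep hNcard')
    · exact hr6.trans (part_line h hV hN hNV hp5 hr0 hNsep hNcard')

end Pool.Agent.H21.SX
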