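import Pool.Agent.H57.SM.Defs

/-!
# Regular growth of moments of linear functionals (Borell's lemma), T26
-/

set_option autoImplicit false

open MeasureTheory Finset Set
open scoped ENNReal

namespace Pool.Agent.H21.SX

open Pool.Agent.H57.SM

/-- log-concave laws -/
structure LC {n : ℕ} (μ : Measure (Fin n → ℝ)) : Prop where
  prob : IsProbabilityMeasure μ
  lc : ∀ K L : Set (Fin n → ℝ), IsCompact K → IsCompact L → ∀ t : ℝ, t ∈ Set.Ioo (0 : ℝ) 1 →
    μ K ^ t * μ L ^ (1 - t) ≤ μ {z | ∃ x ∈ K, ∃ y ∈ L, z = fun i => t * x i + (1 - t) * y i}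

/-- log-concavity for measurable sets -/
theorem x26_lc {n : ℕ} {μ : Measure (Fin n → ℝ)} (h : LC μ) {A B C : Set (Fin n → ℝ)}
    (hA : MeasurableSet A) (hB : MeasurableSet B) {t : ℝ} (ht : t ∈ Set.Ioo (0 : ℝ) 1)
    (hC : ∀ x ∈ A, ∀ y ∈ B, (fun i => t * x i + (1 - t) * y i) ∈ C) :
    μ A ^ t * μ B ^ (1 - t) ≤ μ C := by
  haveI := h.prob
  refine ENNReal.mul_le_of_forall_lt fun a ha b hb => ?_
  have h1 : 0 < t := ht.1
  have h2 : 0 < 1 - t := by linarith [ht.2]
  have ha' : a ^ (t⁻¹) < μ A := (ENNReal.rpow_inv_lt_iff h1).2 ha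
  have hb' : b ^ ((1 - t)⁻¹) < μ B := (ENNReal.rpow_inv_lt_iff h2).2 hb
  obtain ⟨K, hKA, hK, hK1⟩ := hA.exists_lt_isCompact_of_ne_top (measure_ne_top μ A) ha'
  obtain ⟨L, hLB, hL, hL1⟩ := hB.exists_lt_isCompact_of_ne_top (measure_ne_top μ B) hb'
  have ha2 : a ≤ μ K ^ t := ((ENNReal.rpow_inv_lt_iff h1).1 hK1).le
  have hb2 : b ≤ μ L ^ (1 - t) := ((ENNReal.rpow_inv_lt_iff h2).1 hL1).le
  calc a * b ≤ μ K ^ t * μ L ^ (1 - t) := mul_le_mul' ha2 hb2
    _ ≤ μ {z | ∃ x ∈ K, ∃ y ∈ L, z = fun i => t * x i + (1 - t) * y i} := h.lc K L hK hL t ht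
    _ ≤ μ C := by
      refine measure_mono ?_
      rintro z ⟨x, hx, y, hy, rfl⟩
      exact hC x (hKA hx) y (hLB hy)

theorem x26_cont {n : ℕ} (t : Fin n → ℝ) : Continuous (fun x : Fin n → ℝ => ∑ i, t i * x i) := by
  fun_prop

theorem x26_meas {n : ℕ} (t : Fin n → ℝ) (c : ℝ) :
    MeasurableSet {x : Fin n → ℝ | c ≤ |∑ i, t i * x i|} :=
  (isClosed_le continuous_const (x26_cont t).abs).measurableSet

/-- Borell's lemma -/
theorem x26_tail {n : ℕ} {μ : Measure (Fin n → ℝ)} (h : LC μ) (t : Fin n → ℝ) {a q : ℝ}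
    (ha : 0 < a) (hq : 1 ≤ q)
    (hb : μ.real {x | a ≤ |∑ i, t i * x i|} ≤ Real.exp (-2 * q)) {l : ℝ} (hl : 1 ≤ l) :
    μ.real {x | l * a ≤ |∑ i, t i * x i|} ≤ Real.exp (-(3 / 4) * q * (l + 1)) := by
  haveI := h.prob
  rcases hl.eq_or_lt with hl1 | hl1
  · subst hl1
    rw [one_mul]
    refine hb.trans (Real.exp_le_exp.2 ?_)
    nlinarith
  set B : Set (Fin n → ℝ) := {x | a ≤ |∑ i, t i * x i|} with hBdef
  set A : Set (Fin n → ℝ) := {x | l * a ≤ |∑ i, t i * x i|} with hAdef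
  have hBm : MeasurableSet B := x26_meas t a
  have hAm : MeasurableSet A := x26_meas t (l * a)
  set s : ℝ := 2 / (l + 1) with hs
  have hl0 : 0 < l + 1 := by linarith
  have hs0 : 0 < s := by positivity
  have hs1 : s < 1 := by rw [hs, div_lt_one hl0]; linarith
  have h1s : 1 - s = (l - 1) / (l + 1) := by rw [hs]; field_simp; ring
  have key := x26_lc h hAm hBm.compl (C := B) (t := s) ⟨hs0, hs1⟩ (by
    intro x hx y hy
    have hx' : l * a ≤ |∑ i, t i * x i| := hx
    have hy' : |∑ i, t i * y i| < a := by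
      have := hy
      simp only [hBdef, mem_compl_iff, mem_setOf_eq, not_le] at this
      exact this
    change a ≤ |∑ i, t i * (s * x i + (1 - s) * y i)|
    have e : ∑ i, t i * (s * x i + (1 - s) * y i) =
        s * (∑ i, t i * x i) + (1 - s) * (∑ i, t i * y i) := by
      rw [Finset.mul_sum, Finset.mul_sum, ← Finset.sum_add_distrib]
      exact Finset.sum_congr rfl fun i _ => by ring
    rw [e]
    have h3 : s * |∑ i, t i * x i| - (1 - s) * |∑ i, t i * y i| ≤
        |s * (∑ i, t i * x i) + (1 - s) * (∑ i, t i * y i)| := by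
      have h4 := abs_sub_abs_le_abs_sub (s * (∑ i, t i * x i)) (-((1 - s) * (∑ i, t i * y i)))
      rw [abs_neg, abs_mul, abs_mul, abs_of_pos hs0, abs_of_pos (by linarith : 0 < 1 - s),
        sub_neg_eq_add] at h4
      exact h4
    refine le_trans ?_ h3
    have h5 : s * (l * a) ≤ s * |∑ i, t i * x i| := mul_le_mul_of_nonneg_left hx' hs0.le
    have h6 : (1 - s) * |∑ i, t i * y i| ≤ (1 - s) * a :=
      mul_le_mul_of_nonneg_left hy'.le (by linarith)
    have h7 : s * (l * a) - (1 - s) * a = a := by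
      rw [h1s, hs]; field_simp; ring
    linarith)
  -- pass to reals
  have key2 : μ.real A ^ s * μ.real Bᶜ ^ (1 - s) ≤ μ.real B := by
    have := ENNReal.toReal_mono (measure_ne_top μ B) key
    rw [ENNReal.toReal_mul, ← ENNReal.toReal_rpow, ← ENNReal.toReal_rpow] at this
    exact this
  set X : ℝ := μ.real A with hX
  have hX0 : 0 ≤ X := measureReal_nonneg
  have hθ : μ.real Bᶜ = 1 - μ.real B := by
    rw [measureReal_compl hBm]; simp
  have hE1 : Real.exp (1 / 2) ≥ 13 / 8 := by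
    have := Real.quadratic_le_exp_of_nonneg (x := 1 / 2) (by norm_num)
    norm_num at this ⊢
    linarith
  have hE2 : Real.exp (-(1 / 2)) ≤ 8 / 13 := by
    rw [Real.exp_neg, inv_le_comm₀ (Real.exp_pos _) (by norm_num)]
    norm_num at hE1 ⊢
    exact hE1
  have hE3 : Real.exp (-2) ≤ (8 / 13) ^ 4 := by
    have : Real.exp (-2) = Real.exp (-(1 / 2)) ^ 4 := by
      rw [← Real.exp_nat_mul]; norm_num
    rw [this]
    exact pow_le_pow_left₀ (Real.exp_pos _).le hE2 4
  have hB1 : μ.real B ≤ Real.exp (-2) :=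
    hb.trans (Real.exp_le_exp.2 (by linarith))
  have hθ2 : Real.exp (-(1 / 2)) ≤ μ.real Bᶜ := by
    rw [hθ]
    have : (8 / 13 : ℝ) + (8 / 13) ^ 4 ≤ 1 := by norm_num
    linarith
  have hθ1 : μ.real Bᶜ ≤ 1 := measureReal_le_one
  have hθ0 : 0 < μ.real Bᶜ := lt_of_lt_of_le (Real.exp_pos _) hθ2
  have h8 : X ^ s * Real.exp (-(1 / 2)) ≤ Real.exp (-2 * q) := by
    refine le_trans (mul_le_mul_of_nonneg_left ?_ (Real.rpow_nonneg hX0 s)) (key2.trans hb)
    refine hθ2.trans ?_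
    calc μ.real Bᶜ = μ.real Bᶜ ^ (1 : ℝ) := (Real.rpow_one _).symm
      _ ≤ μ.real Bᶜ ^ (1 - s) := Real.rpow_le_rpow_of_exponent_ge hθ0 hθ1 (by linarith)
  have h9 : X ^ s ≤ Real.exp (-(3 / 2) * q) := by
    have h10 : X ^ s = X ^ s * Real.exp (-(1 / 2)) * Real.exp (1 / 2) := by
      rw [mul_assoc, ← Real.exp_add]; norm_num
    rw [h10]
    calc X ^ s * Real.exp (-(1 / 2)) * Real.exp (1 / 2)
        ≤ Real.exp (-2 * q) * Real.exp (1 / 2) :=
          mul_le_mul_of_nonneg_right h8 (Real.exp_pos _).le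
      _ = Real.exp (-2 * q + 1 / 2) := by rw [← Real.exp_add]
      _ ≤ Real.exp (-(3 / 2) * q) := Real.exp_le_exp.2 (by linarith)
  have h11 : X = (X ^ s) ^ (s⁻¹) := by
    rw [← Real.rpow_mul hX0, mul_inv_cancel₀ hs0.ne', Real.rpow_one]
  rw [h11]
  calc (X ^ s) ^ (s⁻¹) ≤ Real.exp (-(3 / 2) * q) ^ (s⁻¹) :=
        Real.rpow_le_rpow (Real.rpow_nonneg hX0 s) h9 (inv_nonneg.2 hs0.le)
    _ = Real.exp (-(3 / 4) * q * (l + 1)) := by
        rw [← Real.exp_mul]
        congr 1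
        rw [hs, inv_div]
        ring

theorem x26_exp {n : ℕ} {μ : Measure (Fin n → ℝ)} (h : LC μ) (t : Fin n → ℝ) {a q : ℝ}
    (ha : 0 < a) (hq : 1 ≤ q)
    (hb : μ.real {x | a ≤ |∑ i, t i * x i|} ≤ Real.exp (-2 * q)) :
    ∫⁻ x, ENNReal.ofReal (Real.exp (q / 2 * (|∑ i, t i * x i| / a))) ∂μ ≤
      ENNReal.ofReal (3 * Real.exp (q / 2)) := by
  haveI := h.prob
  set S : ℕ → Set (Fin n → ℝ) := fun k => {x | k * a ≤ |∑ i, t i * x i|} with hS
  have hSm : ∀ k, MeasurableSet (S k) := fun k => x26_meas t (k * a)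
  have h1 : ∀ x, ENNReal.ofReal (Real.exp (q / 2 * (|∑ i, t i * x i| / a))) ≤
      ∑' k : ℕ, ENNReal.ofReal (Real.exp (q / 2 * (k + 1))) * (S k).indicator 1 x := by
    intro x
    set z : ℝ := |∑ i, t i * x i| / a with hz
    have hz0 : 0 ≤ z := by positivity
    refine le_trans ?_ (ENNReal.le_tsum ⌊z⌋₊)
    have hx : x ∈ S ⌊z⌋₊ := by
      change (⌊z⌋₊ : ℝ) * a ≤ |∑ i, t i * x i|
      have := Nat.floor_le hz0
      rw [hz, le_div_iff₀ ha] at this
      exact this
    rw [Set.indicator_of_mem hx, Pi.one_apply, mul_one]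
    refine ENNReal.ofReal_le_ofReal (Real.exp_le_exp.2 ?_)
    exact mul_le_mul_of_nonneg_left (Nat.lt_floor_add_one z).le (by linarith)
  have h2 : ∀ k : ℕ, ∫⁻ x, ENNReal.ofReal (Real.exp (q / 2 * (k + 1))) * (S k).indicator 1 x ∂μ =
      ENNReal.ofReal (Real.exp (q / 2 * (k + 1)) * μ.real (S k)) := by
    intro k
    rw [lintegral_const_mul _ (measurable_one.indicator (hSm k)), lintegral_indicator_one (hSm k),
      ENNReal.ofReal_mul (Real.exp_pos _).le, ofReal_measureReal]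
  have h3 : ∀ k : ℕ, Real.exp (q / 2 * (((k + 1 : ℕ) : ℝ) + 1)) * μ.real (S (k + 1)) ≤
      Real.exp (q / 2) * (2 / 5 * (4 / 5) ^ k) := by
    intro k
    have h4 : μ.real (S (k + 1)) ≤ Real.exp (-(3 / 4) * q * (((k + 1 : ℕ) : ℝ) + 1)) :=
      x26_tail h t ha hq hb (by push_cast; linarith [(Nat.cast_nonneg k : (0 : ℝ) ≤ k)])
    have h5 : Real.exp (-1) ≤ 2 / 5 := by
      rw [Real.exp_neg, inv_le_comm₀ (Real.exp_pos _) (by norm_num)]
      linarith [Real.exp_one_gt_d9]
    have h6 : Real.exp (-(1 / 4)) ≤ 4 / 5 := by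
      rw [Real.exp_neg, inv_le_comm₀ (Real.exp_pos _) (by norm_num)]
      have := Real.add_one_le_exp (1 / 4 : ℝ)
      norm_num at this ⊢
      linarith
    calc Real.exp (q / 2 * (((k + 1 : ℕ) : ℝ) + 1)) * μ.real (S (k + 1))
        ≤ Real.exp (q / 2 * (((k + 1 : ℕ) : ℝ) + 1)) *
            Real.exp (-(3 / 4) * q * (((k + 1 : ℕ) : ℝ) + 1)) :=
          mul_le_mul_of_nonneg_left h4 (Real.exp_pos _).le
      _ = Real.exp (-(1 / 4) * q * (k + 2)) := by
          rw [← Real.exp_add]; congr 1; push_cast; ring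
      _ ≤ Real.exp (q / 2 + (-1 + k * (-(1 / 4)))) := by
          refine Real.exp_le_exp.2 ?_
          nlinarith [(Nat.cast_nonneg k : (0 : ℝ) ≤ k),
            mul_nonneg (Nat.cast_nonneg k : (0 : ℝ) ≤ k) (by linarith : 0 ≤ q - 1)]
      _ = Real.exp (q / 2) * (Real.exp (-1) * Real.exp (-(1 / 4)) ^ k) := by
          rw [Real.exp_add, Real.exp_add, Real.exp_nat_mul]
      _ ≤ Real.exp (q / 2) * (2 / 5 * (4 / 5) ^ k) := by
          refine mul_le_mul_of_nonneg_left ?_ (Real.exp_pos _).le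
          exact mul_le_mul h5 (pow_le_pow_left₀ (Real.exp_pos _).le h6 k)
            (pow_nonneg (Real.exp_pos _).le k) (by norm_num)
  calc ∫⁻ x, ENNReal.ofReal (Real.exp (q / 2 * (|∑ i, t i * x i| / a))) ∂μ
      ≤ ∫⁻ x, ∑' k : ℕ, ENNReal.ofReal (Real.exp (q / 2 * (k + 1))) * (S k).indicator 1 x ∂μ :=
        lintegral_mono h1
    _ = ∑' k : ℕ, ∫⁻ x, ENNReal.ofReal (Real.exp (q / 2 * (k + 1))) * (S k).indicator 1 x ∂μ :=
        lintegral_tsum fun k => ((measurable_one.indicator (hSm k)).const_mul _).aemeasurable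
    _ = ∑' k : ℕ, ENNReal.ofReal (Real.exp (q / 2 * (k + 1)) * μ.real (S k)) := by
        simp_rw [h2]
    _ = ENNReal.ofReal (Real.exp (q / 2 * ((0 : ℕ) + 1)) * μ.real (S 0)) +
          ∑' k : ℕ, ENNReal.ofReal (Real.exp (q / 2 * (((k + 1 : ℕ) : ℝ) + 1)) *
            μ.real (S (k + 1))) :=
        tsum_eq_zero_add' ENNReal.summable
    _ ≤ ENNReal.ofReal (Real.exp (q / 2)) +
          ∑' k : ℕ, ENNReal.ofReal (Real.exp (q / 2) * (2 / 5 * (4 / 5) ^ k)) := by
        refine add_le_add (ENNReal.ofReal_le_ofReal ?_)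
          (ENNReal.tsum_le_tsum fun k => ENNReal.ofReal_le_ofReal (h3 k))
        have : μ.real (S 0) ≤ 1 := measureReal_le_one
        simp only [Nat.cast_zero, zero_add, mul_one]
        nlinarith [Real.exp_pos (q / 2)]
    _ = ENNReal.ofReal (Real.exp (q / 2)) + ENNReal.ofReal (Real.exp (q / 2) * 2) := by
        congr 1
        have hsum : Summable fun k : ℕ => Real.exp (q / 2) * (2 / 5 * (4 / 5 : ℝ) ^ k) :=
          ((summable_geometric_of_lt_one (by norm_num) (by norm_num)).mul_left _).mul_left _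
        rw [← ENNReal.ofReal_tsum_of_nonneg (fun k => by positivity) hsum, tsum_mul_left,
          tsum_mul_left, tsum_geometric_of_lt_one (by norm_num) (by norm_num)]
        norm_num
    _ = ENNReal.ofReal (3 * Real.exp (q / 2)) := by
        rw [← ENNReal.ofReal_add (Real.exp_pos _).le (by positivity)]
        congr 1; ring

theorem x26_pow {z s p : ℝ} (hz : 0 ≤ z) (hs : 0 < s) (hp : 0 < p) :
    z ^ p ≤ (p / (s * Real.exp 1)) ^ p * Real.exp (s * z) := by
  have h1 : s * z / p ≤ Real.exp (s * z / p - 1) := by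
    have := Real.add_one_le_exp (s * z / p - 1)
    linarith
  have h2 : z ≤ p / (s * Real.exp 1) * Real.exp (s * z / p) := by
    have e : p / (s * Real.exp 1) * Real.exp (s * z / p) =
        p / s * Real.exp (s * z / p - 1) := by
      rw [Real.exp_sub]; field_simp
    rw [e]
    calc z = p / s * (s * z / p) := by field_simp
      _ ≤ _ := mul_le_mul_of_nonneg_left h1 (by positivity)
  calc z ^ p ≤ (p / (s * Real.exp 1) * Real.exp (s * z / p)) ^ p :=
        Real.rpow_le_rpow hz h2 hp.le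
    _ = (p / (s * Real.exp 1)) ^ p * Real.exp (s * z) := by
        rw [Real.mul_rpow (by positivity) (Real.exp_pos _).le, ← Real.exp_mul]
        congr 2; field_simp

theorem x26_nrm {n : ℕ} {μ : Measure (Fin n → ℝ)} (h : LC μ) (t : Fin n → ℝ) {a q p : ℝ}
    (ha : 0 < a) (hq : 1 ≤ q) (hp : 1 ≤ p)
    (hb : μ.real {x | a ≤ |∑ i, t i * x i|} ≤ Real.exp (-2 * q)) :
    nrm μ p t ≤ ENNReal.ofReal (a * p / (q / 2 * Real.exp 1) *
      (3 * Real.exp (q / 2)) ^ (1 / p)) := by
  have hp0 : 0 < p := by linarith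
  have hs : 0 < q / 2 := by linarith
  set C : ℝ := a * p / (q / 2 * Real.exp 1) with hC
  have hC0 : 0 < C := by positivity
  have h1 : ∀ x : Fin n → ℝ, ‖∑ i, t i * x i‖ₑ ^ p ≤
      ENNReal.ofReal (C ^ p) *
        ENNReal.ofReal (Real.exp (q / 2 * (|∑ i, t i * x i| / a))) := by
    intro x
    have e1 : ‖∑ i, t i * x i‖ₑ ^ p = ENNReal.ofReal (|∑ i, t i * x i| ^ p) := by
      rw [← ofReal_norm_eq_enorm, Real.norm_eq_abs,
        ENNReal.ofReal_rpow_of_nonneg (abs_nonneg _) hp0.le]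
    rw [e1, ← ENNReal.ofReal_mul (by positivity)]
    refine ENNReal.ofReal_le_ofReal ?_
    have h2 := x26_pow (z := |∑ i, t i * x i| / a) (s := q / 2) (p := p) (by positivity) hs hp0
    have e2 : |∑ i, t i * x i| ^ p = a ^ p * (|∑ i, t i * x i| / a) ^ p := by
      rw [← Real.mul_rpow ha.le (by positivity)]
      congr 1; field_simp
    have e3 : C ^ p = a ^ p * (p / (q / 2 * Real.exp 1)) ^ p := by
      rw [← Real.mul_rpow ha.le (by positivity), hC]
      congr 1; ring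
    rw [e2, e3, mul_assoc]
    exact mul_le_mul_of_nonneg_left h2 (by positivity)
  have hpne : ENNReal.ofReal p ≠ 0 := by simpa using hp0
  have hD : (0 : ℝ) ≤ 3 * Real.exp (q / 2) := by positivity
  unfold nrm
  rw [eLpNorm_eq_lintegral_rpow_enorm_toReal hpne ENNReal.ofReal_ne_top,
    ENNReal.toReal_ofReal hp0.le]
  calc (∫⁻ x, ‖∑ i, t i * x i‖ₑ ^ p ∂μ) ^ (1 / p)
      ≤ (ENNReal.ofReal (C ^ p) * ENNReal.ofReal (3 * Real.exp (q / 2))) ^ (1 / p) := by
        refine ENNReal.rpow_le_rpow ?_ (by positivity)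
        refine (lintegral_mono h1).trans ?_
        rw [lintegral_const_mul' _ _ ENNReal.ofReal_ne_top]
        exact mul_le_mul_right (x26_exp h t ha hq hb) _
    _ = ENNReal.ofReal (C * (3 * Real.exp (q / 2)) ^ (1 / p)) := by
        rw [← ENNReal.ofReal_mul (by positivity),
          ENNReal.ofReal_rpow_of_nonneg (by positivity) (by positivity),
          Real.mul_rpow (by positivity) hD, ← Real.rpow_mul hC0.le, mul_one_div_cancel hp0.ne',
          Real.rpow_one]

theorem lc_mom {n : ℕ} {μ : Measure (Fin n → ℝ)} (h : LC μ) (t : Fin n → ℝ) {p q : ℝ}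
    (hq : 1 ≤ q) (hqp : q ≤ p) :
    nrm μ p t ≤ ENNReal.ofReal (40 * p / q) * nrm μ q t ∧ nrm μ p t ≠ ∞ := by
  haveI := h.prob
  have hfin : ∀ r : ℝ, 1 ≤ r → nrm μ r t ≠ ∞ := by
    intro r hr
    -- choose `a` with small tail
    have htend : Filter.Tendsto (fun k : ℕ => μ {x | (k : ℝ) + 1 ≤ |∑ i, t i * x i|})
        Filter.atTop (nhds 0) := by
      have hint : ⋂ k : ℕ, {x : Fin n → ℝ | (k : ℝ) + 1 ≤ |∑ i, t i * x i|} = ∅ := by
        ext x
        simp only [mem_iInter, mem_setOf_eq, mem_empty_iff_false, iff_false, not_forall, not_le]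
        obtain ⟨k, hk⟩ := exists_nat_gt |∑ i, t i * x i|
        exact ⟨k, by linarith⟩
      have := tendsto_measure_iInter_atTop (μ := μ)
        (s := fun k : ℕ => {x : Fin n → ℝ | (k : ℝ) + 1 ≤ |∑ i, t i * x i|})
        (fun k => (x26_meas t _).nullMeasurableSet)
        (fun k l hkl x hx => by
          have h1 : (l : ℝ) + 1 ≤ |∑ i, t i * x i| := hx
          have h2 : (k : ℝ) ≤ l := by exact_mod_cast hkl
          change (k : ℝ) + 1 ≤ |∑ i, t i * x i|
          linarith) ⟨0, measure_ne_top _ _⟩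
      rw [hint, measure_empty] at this
      exact this
    have hev : ∀ᶠ k : ℕ in Filter.atTop, μ {x | (k : ℝ) + 1 ≤ |∑ i, t i * x i|} <
        ENNReal.ofReal (Real.exp (-2 * 1)) :=
      htend.eventually_lt_const (by simp [Real.exp_pos])
    obtain ⟨k, hk⟩ := hev.exists
    have hk2 : μ.real {x | (k : ℝ) + 1 ≤ |∑ i, t i * x i|} ≤ Real.exp (-2 * 1) := by
      have := ENNReal.toReal_mono ENNReal.ofReal_ne_top hk.le
      rwa [ENNReal.toReal_ofReal (Real.exp_pos _).le] at this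
    exact ne_top_of_le_ne_top ENNReal.ofReal_ne_top
      (x26_nrm h t (by positivity) le_rfl hr hk2)
  refine ⟨?_, hfin p (by linarith)⟩
  have hq0 : 0 < q := by linarith
  have hp0 : 0 < p := by linarith
  have hqne : ENNReal.ofReal q ≠ 0 := by simpa using hq0
  have hpne : ENNReal.ofReal p ≠ 0 := by simpa using hp0
  have hmeas : AEStronglyMeasurable (fun x : Fin n → ℝ => ∑ i, t i * x i) μ :=
    (x26_cont t).aestronglyMeasurable
  rcases eq_or_ne (nrm μ q t) 0 with h0 | h0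
  · have : nrm μ p t = 0 := by
      unfold nrm at h0 ⊢
      rw [eLpNorm_eq_zero_iff hmeas hqne] at h0
      rw [eLpNorm_eq_zero_iff hmeas hpne]
      exact h0
    rw [this]
    exact bot_le
  set N : ℝ := (nrm μ q t).toReal with hN
  have hNe : nrm μ q t = ENNReal.ofReal N := (ENNReal.ofReal_toReal (hfin q hq)).symm
  have hN0 : 0 < N := ENNReal.toReal_pos h0 (hfin q hq)
  have ha : 0 < Real.exp 2 * N := by positivity
  have hb : μ.real {x | Real.exp 2 * N ≤ |∑ i, t i * x i|} ≤ Real.exp (-2 * q) := by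
    have h1 := meas_ge_le_mul_pow_eLpNorm_enorm μ hqne ENNReal.ofReal_ne_top hmeas
      (ε := ENNReal.ofReal (Real.exp 2 * N)) (by simpa using ha)
      (fun h => absurd h ENNReal.ofReal_ne_top)
    have e1 : {x : Fin n → ℝ | Real.exp 2 * N ≤ |∑ i, t i * x i|} =
        {x : Fin n → ℝ | ENNReal.ofReal (Real.exp 2 * N) ≤ ‖∑ i, t i * x i‖ₑ} := by
      ext x
      rw [mem_setOf_eq, mem_setOf_eq, ← ofReal_norm_eq_enorm, Real.norm_eq_abs,
        ENNReal.ofReal_le_ofReal_iff (abs_nonneg _)]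
    have e2 : eLpNorm (fun x : Fin n → ℝ => ∑ i, t i * x i) (ENNReal.ofReal q) μ =
        ENNReal.ofReal N := hNe
    rw [← e1, e2, ENNReal.toReal_ofReal hq0.le] at h1
    have e3 : (ENNReal.ofReal (Real.exp 2 * N))⁻¹ ^ q * ENNReal.ofReal N ^ q =
        ENNReal.ofReal (Real.exp (-2 * q)) := by
      rw [← ENNReal.mul_rpow_of_nonneg _ _ hq0.le, ← ENNReal.ofReal_inv_of_pos ha,
        ← ENNReal.ofReal_mul (by positivity), ENNReal.ofReal_rpow_of_nonneg (by positivity) hq0.le]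
      congr 1
      have : (Real.exp 2 * N)⁻¹ * N = Real.exp (-2) := by
        rw [Real.exp_neg]; field_simp
      rw [this, ← Real.exp_mul]
    rw [e3] at h1
    have := ENNReal.toReal_mono ENNReal.ofReal_ne_top h1
    rwa [ENNReal.toReal_ofReal (Real.exp_pos _).le] at this
  refine (x26_nrm h t ha hq (by linarith) hb).trans ?_
  rw [hNe, ← ENNReal.ofReal_mul (by positivity)]
  refine ENNReal.ofReal_le_ofReal ?_
  have hD : (3 * Real.exp (q / 2)) ^ (1 / p) ≤ 3 * Real.exp (1 / 2) := by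
    rw [Real.mul_rpow (by norm_num) (Real.exp_pos _).le]
    refine mul_le_mul ?_ ?_ (by positivity) (by norm_num)
    · calc (3 : ℝ) ^ (1 / p) ≤ 3 ^ (1 : ℝ) := by
            refine Real.rpow_le_rpow_of_exponent_le (by norm_num) ?_
            rw [div_le_one hp0]; linarith
        _ = 3 := Real.rpow_one _
    · rw [← Real.exp_mul]
      refine Real.exp_le_exp.2 ?_
      rw [div_mul_div_comm, div_le_div_iff₀ (by positivity) (by norm_num)]
      nlinarith
  have hE : Real.exp (1 / 2) ≤ 17 / 10 := by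
    have h1 : Real.exp (1 / 2) ^ 2 = Real.exp 1 := by
      rw [← Real.exp_nat_mul]; norm_num
    have h2 := Real.exp_one_lt_d9
    nlinarith [Real.exp_pos (1 / 2 : ℝ)]
  have hE1 := Real.exp_one_lt_d9
  have e4 : Real.exp 2 = Real.exp 1 * Real.exp 1 := by
    rw [← Real.exp_add]; norm_num
  calc Real.exp 2 * N * p / (q / 2 * Real.exp 1) * (3 * Real.exp (q / 2)) ^ (1 / p)
      ≤ Real.exp 2 * N * p / (q / 2 * Real.exp 1) * (3 * Real.exp (1 / 2)) :=
        mul_le_mul_of_nonneg_left hD (by positivity)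
    _ = (6 * (Real.exp 1 * Real.exp (1 / 2))) * (p / q) * N := by
        rw [e4]; field_simp; ring
    _ ≤ 40 * p / q * N := by
        have h5 : 6 * (Real.exp 1 * Real.exp (1 / 2)) ≤ 40 := by
          have : Real.exp 1 * Real.exp (1 / 2) ≤ 2.72 * (17 / 10) :=
            mul_le_mul (by linarith) hE (Real.exp_pos _).le (by norm_num)
          linarith
        have h6 : 40 * p / q * N = 40 * (p / q) * N := by ring
        rw [h6]
        exact mul_le_mul_of_nonneg_right (mul_le_mul_of_nonneg_right h5 (by positivity)) hN0.le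

end Pool.Agent.H21.SX
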