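import Pool.Agent.H21.SX.Pair

/-! Norm bound: a functional with zero block sums supported on `A` is controlled by the pairs. -/

set_option autoImplicit false

open MeasureTheory Finset Set
open scoped ENNReal

namespace Pool.Agent.H21.SX

open Pool.Agent.H57.SM

theorem blk_congr {n : ℕ} {β : Fin n → ℕ} (S : Finset (Fin n)) {i l : Fin n} (h : β l = β i) :
    blk β S l = blk β S i := by
  unfold blk
  rw [h]

theorem sum_blk_univ {n : ℕ} (β : Fin n → ℕ) (A : Finset (Fin n)) (i : Fin n) (f : Fin n → ℝ) :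
    ∑ l ∈ blk β univ i, f l = ∑ l ∈ blk β A i, f l + ∑ l ∈ blk β Aᶜ i, f l := by
  classical
  have h1 : blk β univ i = blk β A i ∪ blk β Aᶜ i := by
    ext l
    simp only [mem_blk, Finset.mem_union, Finset.mem_univ, true_and, Finset.mem_compl]
    tauto
  rw [h1, Finset.sum_union]
  rw [Finset.disjoint_left]
  intro l h2 h3
  rw [mem_blk] at h2 h3
  exact (Finset.mem_compl.1 h3.1) h2.1

theorem card_blk_univ {n : ℕ} (β : Fin n → ℕ) (A : Finset (Fin n)) (i : Fin n) :
    ((blk β univ i).card : ℝ) = (blk β A i).card + (blk β Aᶜ i).card := by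
  have h := sum_blk_univ β A i (fun _ => (1 : ℝ))
  simpa using h

theorem sum_blk_perm {n : ℕ} {β : Fin n → ℕ} {τ : Equiv.Perm (Fin n)}
    (hτ : ∀ i, β (τ i) = β i) (i : Fin n) (f : Fin n → ℝ) :
    ∑ l ∈ blk β univ i, f (τ l) = ∑ l ∈ blk β univ i, f l :=
  HH_blk (mem_HH.2 ⟨hτ, fun j hj => absurd (Finset.mem_univ j) hj⟩) i f

theorem avg_of_not {n : ℕ} {β : Fin n → ℕ} {S : Finset (Fin n)} {i : Fin n} (h : i ∉ S)
    (f : Fin n → ℝ) : avg β S f i = f i := by
  unfold avg
  rw [if_neg h]

theorem avg_of_mem {n : ℕ} {β : Fin n → ℕ} {S : Finset (Fin n)} {i : Fin n} (h : i ∈ S)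
    (f : Fin n → ℝ) : avg β S f i = (∑ l ∈ blk β S i, f l) / (blk β S i).card := by
  unfold avg
  rw [if_pos h]

/-- restriction to `A` -/
noncomputable def res {n : ℕ} (A : Finset (Fin n)) (a : Fin n → ℝ) (i : Fin n) : ℝ :=
  if i ∈ A then a i else 0

theorem key_id {n : ℕ} {β : Fin n → ℕ} {A : Finset (Fin n)} {τ : Equiv.Perm (Fin n)}
    (hP : Pr β A τ) {a : Fin n → ℝ} (ha : ∀ i, ∑ l ∈ blk β univ i, a l = 0)
    {b u c : Fin n → ℝ} (hb : b = avg β Aᶜ a) (hu : u = fun i => b i - b (τ i))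
    (hc : c = fun i => 1 - (((blk β Aᶜ i).card : ℝ) / (blk β univ i).card) ^ 2) (i : Fin n) :
    res A a i - avg β univ (res A a) i =
      avg β Aᶜ u i - avg β A (avg β Aᶜ fun l => c l * u l) i := by
  classical
  set k : ℝ := ((blk β A i).card : ℝ) with hk
  set k' : ℝ := ((blk β Aᶜ i).card : ℝ) with hk'
  have hn : ((blk β univ i).card : ℝ) = k + k' := card_blk_univ β A i
  set sA : ℝ := ∑ l ∈ blk β A i, a l with hsA
  have hsA' : ∑ l ∈ blk β Aᶜ i, a l = -sA := by
    have h1 := ha i
    rw [sum_blk_univ β A i a] at h1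
    linarith
  have hk'pos : 0 < k' := by
    by_cases hi : i ∈ A
    · have h1 : τ i ∈ blk β Aᶜ i := mem_blk.2 ⟨Finset.mem_compl.2 (hP.off i hi), hP.blk i⟩
      have : 0 < (blk β Aᶜ i).card := Finset.card_pos.2 ⟨_, h1⟩
      rw [hk']
      exact_mod_cast this
    · exact blk_pos (Finset.mem_compl.2 hi)
  have hk0 : 0 ≤ k := by rw [hk]; positivity
  have hnpos : 0 < k + k' := by linarith
  -- values of u on A
  have hu1 : ∀ l ∈ blk β A i, u l = a l + sA / k' := by
    intro l hl
    rw [mem_blk] at hl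
    rw [hu]
    simp only []
    rw [hb, avg_of_not (by simpa using hl.1), avg_of_mem (Finset.mem_compl.2 (hP.off l hl.1)),
      blk_congr Aᶜ (l := τ l) (i := i) (by rw [hP.blk, hl.2]), hsA', ← hk']
    ring
  have hu2 : ∑ l ∈ blk β A i, u l = sA + k * (sA / k') := by
    rw [Finset.sum_congr rfl hu1, Finset.sum_add_distrib, Finset.sum_const, nsmul_eq_mul]
  have hu3 : ∑ l ∈ blk β univ i, u l = 0 := by
    rw [hu]
    simp only []
    rw [Finset.sum_sub_distrib, sum_blk_perm hP.blk i b, sub_self]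
  have hu4 : ∑ l ∈ blk β Aᶜ i, u l = -(sA + k * (sA / k')) := by
    rw [sum_blk_univ β A i u, hu2] at hu3
    linarith
  -- c is constant on blocks
  have hc1 : ∀ l, β l = β i → c l = 1 - (k' / (k + k')) ^ 2 := by
    intro l hl
    rw [hc]
    simp only []
    rw [blk_congr Aᶜ hl, blk_congr univ hl, hn, ← hk']
  have hcu : ∑ l ∈ blk β Aᶜ i, c l * u l =
      -((1 - (k' / (k + k')) ^ 2) * (sA + k * (sA / k'))) := by
    have : ∀ l ∈ blk β Aᶜ i, c l * u l = (1 - (k' / (k + k')) ^ 2) * u l := by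
      intro l hl
      rw [hc1 l (mem_blk.1 hl).2]
    rw [Finset.sum_congr rfl this, ← Finset.mul_sum, hu4]
    ring
  -- average of the restriction
  have hres : avg β univ (res A a) i = sA / (k + k') := by
    rw [avg_of_mem (Finset.mem_univ i), hn, sum_blk_univ β A i]
    congr 1
    have e1 : ∑ l ∈ blk β A i, res A a l = sA := by
      rw [hsA]
      apply Finset.sum_congr rfl
      intro l hl
      unfold res
      rw [if_pos (mem_blk.1 hl).1]
    have e2 : ∑ l ∈ blk β Aᶜ i, res A a l = 0 := by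
      apply Finset.sum_eq_zero
      intro l hl
      unfold res
      rw [if_neg (Finset.mem_compl.1 (mem_blk.1 hl).1)]
    rw [e1, e2, add_zero]
  rw [hres]
  by_cases hi : i ∈ A
  · have hkpos : 0 < k := blk_pos hi
    rw [avg_of_not (S := Aᶜ) (by simpa using hi), hu1 i (self_blk hi), avg_of_mem hi]
    have e3 : ∑ l ∈ blk β A i, avg β Aᶜ (fun l => c l * u l) l =
        (1 - (k' / (k + k')) ^ 2) * (sA + k * (sA / k')) := by
      have : ∀ l ∈ blk β A i, avg β Aᶜ (fun l => c l * u l) l =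
          (1 - (k' / (k + k')) ^ 2) * u l := by
        intro l hl
        have hl' := mem_blk.1 hl
        rw [avg_of_not (by simpa using hl'.1), hc1 l hl'.2]
      rw [Finset.sum_congr rfl this, ← Finset.mul_sum, hu2]
    rw [e3, ← hk]
    unfold res
    rw [if_pos hi]
    field_simp
    ring
  · have hi' : i ∈ Aᶜ := Finset.mem_compl.2 hi
    rw [avg_of_mem hi', hu4, avg_of_not hi, avg_of_mem hi', hcu, ← hk']
    unfold res
    rw [if_neg hi]
    field_simp
    ring

theorem nr_u {n : ℕ} {β : Fin n → ℕ} {μ : Measure (Fin n → ℝ)}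
    {A : Finset (Fin n)} {τ : Equiv.Perm (Fin n)} (hP : Pr β A τ) (p : ℝ) (b : Fin n → ℝ) :
    nr μ p (fun i => b i - b (τ i)) =
      2 * nr (μ.map (yy A τ)) p (fun i => if i ∈ A then b i - b (τ i) else 0) := by
  rw [nr_map (yy_cont A τ).measurable (c := 1 / 2) (by norm_num) (pair_sum hP b)]
  ring

/-- norm bound for one pairing -/
theorem nr_pair {n : ℕ} {β : Fin n → ℕ} {μ : Measure (Fin n → ℝ)} (h : BX β μ)
    {A : Finset (Fin n)} {τ : Equiv.Perm (Fin n)} (hP : Pr β A τ) {p : ℝ} (hp : 1 ≤ p)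
    {a : Fin n → ℝ} (ha : ∀ i, ∑ l ∈ blk β univ i, a l = 0) :
    nr μ p (fun i => res A a i - avg β univ (res A a) i) ≤
      4 * nr (μ.map (yy A τ)) p (LL β A τ a) := by
  set b : Fin n → ℝ := avg β Aᶜ a with hb
  set u : Fin n → ℝ := fun i => b i - b (τ i) with hu
  set c : Fin n → ℝ := fun i => 1 - (((blk β Aᶜ i).card : ℝ) / (blk β univ i).card) ^ 2 with hc
  have e : (fun i => res A a i - avg β univ (res A a) i) =
      fun i => avg β Aᶜ u i - avg β A (avg β Aᶜ fun l => c l * u l) i := by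
    funext i
    exact key_id hP ha hb hu hc i
  have hc01 : ∀ i, 0 ≤ c i ∧ c i ≤ 1 := by
    intro i
    rw [hc]
    simp only []
    have h1 : ((blk β Aᶜ i).card : ℝ) ≤ (blk β univ i).card := by
      rw [card_blk_univ β A i]
      have : (0 : ℝ) ≤ (blk β A i).card := by positivity
      linarith
    have h2 : ((blk β Aᶜ i).card : ℝ) / (blk β univ i).card ≤ 1 :=
      div_le_one_of_le₀ h1 (by positivity)
    have h3 : 0 ≤ ((blk β Aᶜ i).card : ℝ) / (blk β univ i).card := by positivity
    constructor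
    · nlinarith
    · have := sq_nonneg (((blk β Aᶜ i).card : ℝ) / (blk β univ i).card)
      linarith
  have hcτ : ∀ i, c (τ i) = c i := by
    intro i
    rw [hc]
    simp only []
    rw [blk_congr Aᶜ (hP.blk i), blk_congr univ (hP.blk i)]
  have hU : ULC (μ.map (yy A τ)) := ulc_yy h hP
  have hLL : LL β A τ a = fun i => if i ∈ A then b i - b (τ i) else 0 := by
    funext i
    rfl
  have h1 : nr μ p u = 2 * nr (μ.map (yy A τ)) p (LL β A τ a) := by
    rw [hLL]
    exact nr_u hP p b
  have h2 : nr μ p (fun l => c l * u l) ≤ 2 * nr (μ.map (yy A τ)) p (LL β A τ a) := by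
    have e1 : (fun l => c l * u l) = fun i => (c i * b i) - (c (τ i) * b (τ i)) := by
      funext i
      rw [hcτ, hu]
      ring
    rw [e1, nr_u hP p (fun i => c i * b i)]
    have e2 : (fun i => if i ∈ A then c i * b i - c (τ i) * b (τ i) else 0) =
        fun i => c i * LL β A τ a i := by
      funext i
      rw [hLL]
      simp only []
      rw [hcτ]
      split_ifs
      · ring
      · ring
    rw [e2]
    have := nr_contr hU hp (c := c) (fun i => abs_le.2 ⟨by linarith [(hc01 i).1], (hc01 i).2⟩)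
      (LL β A τ a)
    linarith
  rw [e]
  have h3 := nr_sub h.lc hp (avg β Aᶜ u) (avg β A (avg β Aᶜ fun l => c l * u l))
  have h4 := nr_avg h hp Aᶜ u
  have h5 := nr_avg h hp A (avg β Aᶜ fun l => c l * u l)
  have h6 := nr_avg h hp Aᶜ (fun l => c l * u l)
  linarith

/-- the block means are in the kernel of `LL` -/
theorem LL_avg {n : ℕ} {β : Fin n → ℕ}
    {A : Finset (Fin n)} {τ : Equiv.Perm (Fin n)} (hP : Pr β A τ) (a : Fin n → ℝ) (i : Fin n) :
    LL β A τ (avg β univ a) i = 0 := by
  have h1 : ∀ l, avg β Aᶜ (avg β univ a) l = avg β univ a l := by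
    intro l
    by_cases hl : l ∈ Aᶜ
    · rw [avg_of_mem hl]
      have h2 : ∀ l' ∈ blk β Aᶜ l, avg β univ a l' = avg β univ a l := by
        intro l' hl'
        rw [avg_of_mem (Finset.mem_univ _), avg_of_mem (Finset.mem_univ _),
          blk_congr univ (mem_blk.1 hl').2]
      rw [Finset.sum_congr rfl h2, Finset.sum_const, nsmul_eq_mul]
      have := blk_pos (β := β) hl
      field_simp
    · rw [avg_of_not hl]
  unfold LL
  split_ifs with hi
  · rw [h1, h1, avg_of_mem (Finset.mem_univ _), avg_of_mem (Finset.mem_univ _),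
      blk_congr univ (hP.blk i), sub_self]
  · rfl

theorem avg_sum_zero {n : ℕ} (β : Fin n → ℕ) (a : Fin n → ℝ) (i : Fin n) :
    ∑ l ∈ blk β univ i, (a l - avg β univ a l) = 0 := by
  have h2 : ∀ l ∈ blk β univ i, avg β univ a l = avg β univ a i := by
    intro l hl
    rw [avg_of_mem (Finset.mem_univ _), avg_of_mem (Finset.mem_univ _),
      blk_congr univ (mem_blk.1 hl).2]
  rw [Finset.sum_sub_distrib, Finset.sum_congr rfl h2, Finset.sum_const, nsmul_eq_mul,
    avg_of_mem (Finset.mem_univ i)]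
  have := blk_pos (β := β) (Finset.mem_univ i)
  field_simp
  ring

/-- norm bound with three pairings -/
theorem nr_three {n : ℕ} {β : Fin n → ℕ} {μ : Measure (Fin n → ℝ)} (h : BX β μ)
    {A : Fin 3 → Finset (Fin n)} {τ : Fin 3 → Equiv.Perm (Fin n)} (hP : ∀ j, Pr β (A j) (τ j))
    (hcov : ∀ i, (∑ j, if i ∈ A j then (1 : ℝ) else 0) = 1 ∨ (blk β univ i).card = 1)
    {p : ℝ} (hp : 1 ≤ p) (a : Fin n → ℝ) :
    nr μ p a ≤ nr μ p (avg β univ a) +
      4 * ∑ j, nr (μ.map (yy (A j) (τ j))) p (LL β (A j) (τ j) a) := by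
  set a' : Fin n → ℝ := fun i => a i - avg β univ a i with ha'
  have hz : ∀ i, ∑ l ∈ blk β univ i, a' l = 0 := fun i => avg_sum_zero β a i
  have h1 : ∀ j, nr μ p (fun i => res (A j) a' i - avg β univ (res (A j) a') i) ≤
      4 * nr (μ.map (yy (A j) (τ j))) p (LL β (A j) (τ j) a) := by
    intro j
    have h2 := nr_pair h (hP j) hp hz
    have e : LL β (A j) (τ j) a' = LL β (A j) (τ j) a := by
      funext i
      rw [ha', LL_sub, LL_avg (hP j), sub_zero]
    rwa [e] at h2
  have h3 : ∀ i, ∑ j, res (A j) a' i = a' i := by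
    intro i
    have e : ∀ j, res (A j) a' i = (if i ∈ A j then (1 : ℝ) else 0) * a' i := by
      intro j
      unfold res
      split_ifs <;> ring
    rw [Finset.sum_congr rfl fun j _ => e j, ← Finset.sum_mul]
    rcases hcov i with h4 | h4
    · rw [h4, one_mul]
    · have h5 : blk β univ i = {i} := by
        obtain ⟨l, hl⟩ := Finset.card_eq_one.1 h4
        have h6 : i ∈ blk β univ i := self_blk (Finset.mem_univ i)
        rw [hl] at h6 ⊢
        rw [Finset.mem_singleton.1 h6]
      have h6 := hz i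
      rw [h5, Finset.sum_singleton] at h6
      rw [h6, mul_zero]
  have h4 : ∀ i, ∑ j, avg β univ (res (A j) a') i = 0 := by
    intro i
    have e : ∀ j, avg β univ (res (A j) a') i =
        (∑ l ∈ blk β univ i, res (A j) a' l) / (blk β univ i).card := fun j =>
      avg_of_mem (Finset.mem_univ i) _
    rw [Finset.sum_congr rfl fun j _ => e j, ← Finset.sum_div, Finset.sum_comm,
      Finset.sum_congr rfl fun l _ => h3 l, hz i, zero_div]
  have h5 : a' = fun i => ∑ j : Fin 3, (1 : ℝ) * (res (A j) a' i - avg β univ (res (A j) a') i) := by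
    funext i
    have : ∑ j : Fin 3, (1 : ℝ) * (res (A j) a' i - avg β univ (res (A j) a') i) =
        ∑ j, res (A j) a' i - ∑ j, avg β univ (res (A j) a') i := by
      rw [← Finset.sum_sub_distrib]
      exact Finset.sum_congr rfl fun j _ => by ring
    rw [this, h3, h4, sub_zero]
  have h6 : nr μ p a' ≤ ∑ j : Fin 3, 1 * nr μ p (fun i => res (A j) a' i -
      avg β univ (res (A j) a') i) := by
    conv_lhs => rw [h5]
    exact nr_sum h.lc hp Finset.univ (fun _ => 1) (fun _ => zero_le_one) _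
  have h7 : nr μ p a ≤ nr μ p (avg β univ a) + nr μ p a' := by
    have e : a = fun i => avg β univ a i + a' i := by
      funext i
      rw [ha']
      ring
    conv_lhs => rw [e]
    exact nr_add h.lc hp _ _
  refine h7.trans (add_le_add le_rfl (h6.trans ?_))
  rw [Finset.mul_sum]
  apply Finset.sum_le_sum
  intro j _
  rw [one_mul]
  exact h1 j

end Pool.Agent.H21.SX
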