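import Pool.Agent.H21.SX.Mom
import Pool.Agent.H57.SM.Basics

/-! Norms of linear functionals of a log-concave vector, and integrability of suprema. -/

set_option autoImplicit false

open MeasureTheory Finset Set
open scoped ENNReal

namespace Pool.Agent.H21.SX

open Pool.Agent.H57.SM

theorem lc_of_ulc {n : ℕ} {μ : Measure (Fin n → ℝ)} (h : ULC μ) : LC μ := ⟨h.prob, h.lc⟩

/-- the `L^p` norm of `Σ t_i x_i` as a real number -/
noncomputable def nr {n : ℕ} (μ : Measure (Fin n → ℝ)) (p : ℝ) (t : Fin n → ℝ) : ℝ :=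
  (nrm μ p t).toReal

theorem nr_nonneg {n : ℕ} (μ : Measure (Fin n → ℝ)) (p : ℝ) (t : Fin n → ℝ) : 0 ≤ nr μ p t :=
  ENNReal.toReal_nonneg

theorem nrm_ne_top {n : ℕ} {μ : Measure (Fin n → ℝ)} (h : LC μ) {p : ℝ} (hp : 1 ≤ p)
    (t : Fin n → ℝ) : nrm μ p t ≠ ∞ := (lc_mom h t hp le_rfl).2

theorem lin_meas {n : ℕ} (t : Fin n → ℝ) : Measurable (fun x : Fin n → ℝ => ∑ i, t i * x i) := by
  fun_prop

theorem nr_add {n : ℕ} {μ : Measure (Fin n → ℝ)} (h : LC μ) {p : ℝ} (hp : 1 ≤ p)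
    (s t : Fin n → ℝ) : nr μ p (fun i => s i + t i) ≤ nr μ p s + nr μ p t := by
  unfold nr
  rw [← ENNReal.toReal_add (nrm_ne_top h hp s) (nrm_ne_top h hp t)]
  apply ENNReal.toReal_mono (ENNReal.add_ne_top.2 ⟨nrm_ne_top h hp s, nrm_ne_top h hp t⟩)
  unfold nrm
  have e : (fun x : Fin n → ℝ => ∑ i, (s i + t i) * x i) =
      (fun x => ∑ i, s i * x i) + fun x => ∑ i, t i * x i := by
    funext x
    simp only [Pi.add_apply]
    rw [← Finset.sum_add_distrib]
    exact Finset.sum_congr rfl fun i _ => by ring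
  rw [e]
  apply eLpNorm_add_le (lin_meas s).aestronglyMeasurable (lin_meas t).aestronglyMeasurable
  rw [← ENNReal.ofReal_one]
  exact ENNReal.ofReal_le_ofReal hp

theorem nr_smul {n : ℕ} (μ : Measure (Fin n → ℝ)) (p c : ℝ)
    (t : Fin n → ℝ) : nr μ p (fun i => c * t i) = |c| * nr μ p t := by
  unfold nr nrm
  have e : (fun x : Fin n → ℝ => ∑ i, (c * t i) * x i) = c • fun x => ∑ i, t i * x i := by
    funext x
    simp only [Pi.smul_apply, smul_eq_mul]
    rw [Finset.mul_sum]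
    exact Finset.sum_congr rfl fun i _ => by ring
  rw [e, eLpNorm_const_smul, ENNReal.toReal_mul]
  simp

theorem nr_sub {n : ℕ} {μ : Measure (Fin n → ℝ)} (h : LC μ) {p : ℝ} (hp : 1 ≤ p)
    (s t : Fin n → ℝ) : nr μ p (fun i => s i - t i) ≤ nr μ p s + nr μ p t := by
  have h1 := nr_add h hp s (fun i => (-1) * t i)
  rw [nr_smul] at h1
  simp only [abs_neg, abs_one, one_mul] at h1
  refine le_trans (le_of_eq ?_) h1
  congr 1
  funext i
  ring

theorem nr_sum {n : ℕ} {μ : Measure (Fin n → ℝ)} (h : LC μ) {p : ℝ} (hp : 1 ≤ p) {ι : Type*}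
    (s : Finset ι) (w : ι → ℝ) (hw : ∀ k, 0 ≤ w k) (t : ι → Fin n → ℝ) :
    nr μ p (fun i => ∑ k ∈ s, w k * t k i) ≤ ∑ k ∈ s, w k * nr μ p (t k) := by
  classical
  induction s using Finset.induction_on with
  | empty =>
    simp only [Finset.sum_empty]
    have h1 := nr_smul μ p 0 (fun _ => 0)
    simp only [mul_zero, abs_zero, zero_mul] at h1
    exact h1.le
  | insert k s hk ih =>
    rw [Finset.sum_insert hk]
    have e : (fun i => ∑ l ∈ insert k s, w l * t l i) =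
        fun i => w k * t k i + ∑ l ∈ s, w l * t l i := by
      funext i
      rw [Finset.sum_insert hk]
    rw [e]
    refine (nr_add h hp _ _).trans ?_
    rw [nr_smul, abs_of_nonneg (hw k)]
    linarith

/-- change of variables -/
theorem nr_map {n m : ℕ} {μ : Measure (Fin n → ℝ)} {p : ℝ}
    {y : (Fin n → ℝ) → Fin m → ℝ} (hy : Measurable y) {t : Fin m → ℝ} {t' : Fin n → ℝ} {c : ℝ}
    (hc : 0 ≤ c) (e : ∀ x, ∑ i, t i * y x i = c * ∑ i, t' i * x i) :
    nr (μ.map y) p t = c * nr μ p t' := by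
  rw [← abs_of_nonneg hc, ← nr_smul]
  unfold nr nrm
  rw [eLpNorm_map_measure (lin_meas t).aestronglyMeasurable hy.aemeasurable]
  congr 2
  funext x
  simp only [Function.comp_apply]
  rw [e x, Finset.mul_sum]
  exact Finset.sum_congr rfl fun i _ => by ring

theorem nr_mom {n : ℕ} {μ : Measure (Fin n → ℝ)} (h : LC μ) {p q : ℝ} (hq : 1 ≤ q) (hqp : q ≤ p)
    (t : Fin n → ℝ) : nr μ p t ≤ 40 * p / q * nr μ q t := by
  have h1 := (lc_mom h t hq hqp).1
  have h2 : 0 ≤ 40 * p / q := by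
    have : 0 < q := by linarith
    have : 0 < p := by linarith
    positivity
  have h3 := ENNReal.toReal_mono (ENNReal.mul_ne_top ENNReal.ofReal_ne_top
    (nrm_ne_top h hq t)) h1
  rw [ENNReal.toReal_mul, ENNReal.toReal_ofReal h2] at h3
  exact h3

theorem ofReal_le_nrm {n : ℕ} {μ : Measure (Fin n → ℝ)} (h : LC μ) {p : ℝ} (hp : 1 ≤ p)
    (t : Fin n → ℝ) (A : ℝ) : ENNReal.ofReal A ≤ nrm μ p t ↔ A ≤ nr μ p t := by
  unfold nr
  rw [ENNReal.ofReal_le_iff_le_toReal (nrm_ne_top h hp t)]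

theorem x27_memLp {n : ℕ} {μ : Measure (Fin n → ℝ)} (h : LC μ) (t : Fin n → ℝ) {p : ℝ}
    (hp : 1 ≤ p) : MemLp (fun x => ∑ i, t i * x i) (ENNReal.ofReal p) μ :=
  ⟨(lin_meas t).aestronglyMeasurable, (lc_mom h t hp le_rfl).2.lt_top⟩

theorem x27_lin {n : ℕ} {μ : Measure (Fin n → ℝ)} (h : LC μ) (t : Fin n → ℝ) :
    Integrable (fun x => ∑ i, t i * x i) μ := by
  have h1 := x27_memLp h t (le_refl 1)
  rw [ENNReal.ofReal_one] at h1
  exact memLp_one_iff_integrable.1 h1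

theorem x27_coord {n : ℕ} {μ : Measure (Fin n → ℝ)} (h : LC μ) (i : Fin n) :
    Integrable (fun x => x i) μ := by
  have h1 := x27_lin h (fun j => if j = i then 1 else 0)
  have h2 : (fun x : Fin n → ℝ => ∑ j, (if j = i then (1 : ℝ) else 0) * x j) = fun x => x i := by
    funext x
    simp
  rwa [h2] at h1

theorem x27_Sup_int {n : ℕ} {μ : Measure (Fin n → ℝ)} (h : LC μ) {T : Finset (Fin n → ℝ)}
    (hT : T.Nonempty) : Integrable (Sup T hT) μ := by
  obtain ⟨C, hC, hb⟩ := Sup_bd hT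
  apply Integrable.mono' ((integrable_finsetSum _ fun i _ =>
    (x27_coord h i).abs).const_mul C) (Sup_cont hT).aestronglyMeasurable
  exact Filter.Eventually.of_forall fun x => by
    rw [Real.norm_eq_abs, abs_of_nonneg (Sup_nonneg hT x)]
    exact hb x

theorem x27_nrm {n : ℕ} {μ : Measure (Fin n → ℝ)} (h : LC μ) (t : Fin n → ℝ) {p : ℝ}
    (hp : 1 ≤ p) :
    nr μ p t = (∫ x, |∑ i, t i * x i| ^ p ∂μ) ^ (1 / p) := by
  have h1 := MemLp.eLpNorm_eq_integral_rpow_norm (μ := μ) (p := ENNReal.ofReal p)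
    (f := fun x => ∑ i, t i * x i) (by simp; linarith) ENNReal.ofReal_ne_top (x27_memLp h t hp)
  rw [ENNReal.toReal_ofReal (by linarith)] at h1
  unfold nr nrm
  rw [h1, one_div, ENNReal.toReal_ofReal]
  · rfl
  · apply Real.rpow_nonneg
    apply integral_nonneg
    intro x
    positivity

theorem nr_one {n : ℕ} {μ : Measure (Fin n → ℝ)} (h : LC μ) (t : Fin n → ℝ) :
    nr μ 1 t = ∫ x, |∑ i, t i * x i| ∂μ := by
  rw [x27_nrm h t le_rfl]
  simp only [Real.rpow_one, div_one]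

/-- contraction for unconditional laws -/
theorem nr_sg {n : ℕ} {μ : Measure (Fin n → ℝ)} (h : ULC μ) (p : ℝ) (ε : Fin n → Bool)
    (t : Fin n → ℝ) : nr μ p (fun i => sg (ε i) * t i) = nr μ p t := by
  have h1 := nr_map (μ := μ) (p := p) (y := fun (x : Fin n → ℝ) i => sg (ε i) * x i)
    (sgn_cont ε).measurable (t := t) (t' := fun i => sg (ε i) * t i) (c := 1) zero_le_one
    (fun x => by
      rw [one_mul]
      exact Finset.sum_congr rfl fun i _ => by ring)
  rw [h.sgn ε, one_mul] at h1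
  exact h1.symm

theorem nr_contr {n : ℕ} {μ : Measure (Fin n → ℝ)} (h : ULC μ) {p : ℝ} (hp : 1 ≤ p)
    {c : Fin n → ℝ} (hc : ∀ i, |c i| ≤ 1) (t : Fin n → ℝ) :
    nr μ p (fun i => c i * t i) ≤ nr μ p t := by
  have h1 := nr_sum (lc_of_ulc h) hp (Finset.univ : Finset (Fin n → Bool))
    (fun ε => ∏ i, (1 + sg (ε i) * c i) / 2) (fun ε => Eb_w_nonneg hc ε)
    (fun ε i => sg (ε i) * t i)
  have h2 : (fun i => ∑ ε : Fin n → Bool, (∏ i, (1 + sg (ε i) * c i) / 2) * (sg (ε i) * t i)) =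
      fun i => c i * t i := by
    funext i
    have h3 := Eb_sg c i
    unfold Eb at h3
    rw [← h3, Finset.sum_mul]
    exact Finset.sum_congr rfl fun ε _ => by ring
  rw [h2] at h1
  refine h1.trans (le_of_eq ?_)
  have h4 : ∀ ε : Fin n → Bool, (∏ i, (1 + sg (ε i) * c i) / 2) *
      nr μ p (fun i => sg (ε i) * t i) = (∏ i, (1 + sg (ε i) * c i) / 2) * nr μ p t := by
    intro ε
    rw [nr_sg h]
  rw [Finset.sum_congr rfl fun ε _ => h4 ε]
  exact Eb_const c _

end Pool.Agent.H21.SX
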