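import Pool.Agent.H21.SX.Avg

/-! Pairings of coordinates: the differences inside the pairs form an unconditional vector. -/

set_option autoImplicit false

open MeasureTheory Finset Set
open scoped ENNReal

namespace Pool.Agent.H21.SX

open Pool.Agent.H57.SM

/-- `τ` pairs the elements of `A` with elements outside `A`, inside the blocks -/
structure Pr {n : ℕ} (β : Fin n → ℕ) (A : Finset (Fin n)) (τ : Equiv.Perm (Fin n)) : Prop where
  inv : ∀ i, τ (τ i) = i
  blk : ∀ i, β (τ i) = β i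
  off : ∀ i ∈ A, τ i ∉ A
  fix : ∀ i, i ∉ A → τ i ∉ A → τ i = i

/-- half differences inside the pairs -/
noncomputable def yy {n : ℕ} (A : Finset (Fin n)) (τ : Equiv.Perm (Fin n)) (x : Fin n → ℝ)
    (i : Fin n) : ℝ := if i ∈ A then (x i - x (τ i)) / 2 else 0

theorem yy_cont {n : ℕ} (A : Finset (Fin n)) (τ : Equiv.Perm (Fin n)) :
    Continuous (yy A τ) := by
  apply continuous_pi
  intro i
  unfold yy
  split_ifs
  · fun_prop
  · fun_prop

theorem pair_sum {n : ℕ} {β : Fin n → ℕ} {A : Finset (Fin n)} {τ : Equiv.Perm (Fin n)}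
    (hP : Pr β A τ) (b x : Fin n → ℝ) :
    ∑ i, (if i ∈ A then b i - b (τ i) else 0) * yy A τ x i =
      1 / 2 * ∑ i, (b i - b (τ i)) * x i := by
  have h1 : ∀ i, (b i - b (τ i)) * x i =
      (if i ∈ A then (b i - b (τ i)) * x i else 0) +
      (if τ i ∈ A then (b i - b (τ i)) * x i else 0) := by
    intro i
    by_cases hi : i ∈ A
    · rw [if_pos hi, if_neg (hP.off i hi), add_zero]
    · by_cases hi' : τ i ∈ A
      · rw [if_neg hi, if_pos hi', zero_add]
      · rw [if_neg hi, if_neg hi', hP.fix i hi hi']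
        ring
  have h2 : ∑ i, (if τ i ∈ A then (b i - b (τ i)) * x i else 0) =
      ∑ i, (if i ∈ A then (b (τ i) - b i) * x (τ i) else 0) := by
    rw [← Equiv.sum_comp τ (fun i => if i ∈ A then (b (τ i) - b i) * x (τ i) else 0)]
    apply Finset.sum_congr rfl
    intro i _
    simp only [hP.inv]
  rw [Finset.sum_congr rfl fun i _ => h1 i, Finset.sum_add_distrib, h2, ← Finset.sum_add_distrib,
    Finset.mul_sum]
  apply Finset.sum_congr rfl
  intro i _
  unfold yy
  split_ifs
  · ring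
  · ring

theorem lc_map {n m : ℕ} {μ : Measure (Fin n → ℝ)} (h : LC μ) {y : (Fin n → ℝ) → Fin m → ℝ}
    (hy : Measurable y)
    (hlin : ∀ (a b : ℝ) (x x' : Fin n → ℝ),
      y (fun i => a * x i + b * x' i) = fun i => a * y x i + b * y x' i) : LC (μ.map y) := by
  haveI := h.prob
  refine ⟨Measure.isProbabilityMeasure_map hy.aemeasurable, ?_⟩
  intro K L hK hL t ht
  rw [Measure.map_apply hy hK.measurableSet, Measure.map_apply hy hL.measurableSet]
  refine le_trans ?_ (Measure.le_map_apply hy.aemeasurable _)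
  apply x26_lc h (hy hK.measurableSet) (hy hL.measurableSet) ht
  intro x hx x' hx'
  exact ⟨y x, hx, y x', hx', hlin t (1 - t) x x'⟩

theorem yy_lin {n : ℕ} (A : Finset (Fin n)) (τ : Equiv.Perm (Fin n)) (a b : ℝ)
    (x x' : Fin n → ℝ) :
    yy A τ (fun i => a * x i + b * x' i) = fun i => a * yy A τ x i + b * yy A τ x' i := by
  funext i
  unfold yy
  split_ifs
  · ring
  · ring

theorem ulc_yy {n : ℕ} {β : Fin n → ℕ} {μ : Measure (Fin n → ℝ)} (h : BX β μ)
    {A : Finset (Fin n)} {τ : Equiv.Perm (Fin n)} (hP : Pr β A τ) : ULC (μ.map (yy A τ)) := by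
  have hl := lc_map h.lc (yy_cont A τ).measurable (yy_lin A τ)
  refine ⟨hl.prob, hl.lc, ?_⟩
  intro ε
  classical
  set s : Fin n → Fin n := fun i =>
    if (i ∈ A ∧ ε i = false) ∨ (τ i ∈ A ∧ ε (τ i) = false) then τ i else i with hs
  have hinv : Function.Involutive s := by
    intro i
    simp only [hs]
    by_cases hc : (i ∈ A ∧ ε i = false) ∨ (τ i ∈ A ∧ ε (τ i) = false)
    · rw [if_pos hc, hP.inv, if_pos (Or.symm hc)]
    · rw [if_neg hc, if_neg hc]
  set σ : Equiv.Perm (Fin n) := hinv.toPerm with hσ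
  have hσs : ∀ i, σ i = s i := fun i => rfl
  have hβ : ∀ i, β (σ i) = β i := by
    intro i
    rw [hσs]
    simp only [hs]
    split_ifs
    · exact hP.blk i
    · rfl
  have hm1 : Measurable (fun (x : Fin n → ℝ) (i : Fin n) => sg (ε i) * x i) :=
    (sgn_cont ε).measurable
  have hm2 : Measurable (fun (x : Fin n → ℝ) i => x (σ i)) := (perm_cont σ).measurable
  rw [Measure.map_map hm1 (yy_cont A τ).measurable]
  conv_rhs => rw [← h.perm σ hβ, Measure.map_map (yy_cont A τ).measurable hm2]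
  congr 1
  funext x i
  simp only [Function.comp_apply]
  unfold yy
  by_cases hi : i ∈ A
  · rw [if_pos hi, if_pos hi]
    have hi' := hP.off i hi
    change sg (ε i) * ((x i - x (τ i)) / 2) = (x (σ i) - x (σ (τ i))) / 2
    rw [hσs, hσs]
    simp only [hs, hP.inv]
    cases hε : ε i
    · rw [if_pos (Or.inl ⟨hi, rfl⟩), if_pos (Or.inr ⟨hi, rfl⟩), sg_false]
      ring
    · rw [if_neg, if_neg, sg_true]
      · ring
      · rintro (h1 | h1)
        · exact hi' h1.1
        · exact absurd h1.2 (by simp)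
      · rintro (h1 | h1)
        · exact absurd h1.2 (by simp)
        · exact hi' h1.1
  · rw [if_neg hi, if_neg hi, mul_zero]

/-- the linear map on the side of the functionals -/
noncomputable def LL {n : ℕ} (β : Fin n → ℕ) (A : Finset (Fin n)) (τ : Equiv.Perm (Fin n))
    (v : Fin n → ℝ) (i : Fin n) : ℝ := if i ∈ A then avg β Aᶜ v i - avg β Aᶜ v (τ i) else 0

theorem avg_sub {n : ℕ} (β : Fin n → ℕ) (S : Finset (Fin n)) (v w : Fin n → ℝ) (i : Fin n) :
    avg β S (fun i => v i - w i) i = avg β S v i - avg β S w i := by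
  unfold avg
  split_ifs
  · rw [Finset.sum_sub_distrib, sub_div]
  · rfl

theorem LL_sub {n : ℕ} (β : Fin n → ℕ) (A : Finset (Fin n)) (τ : Equiv.Perm (Fin n))
    (v w : Fin n → ℝ) (i : Fin n) :
    LL β A τ (fun i => v i - w i) i = LL β A τ v i - LL β A τ w i := by
  unfold LL
  split_ifs
  · rw [avg_sub, avg_sub]; ring
  · ring

theorem int_Sup_LL {n : ℕ} {β : Fin n → ℕ} {μ : Measure (Fin n → ℝ)} (h : BX β μ)
    {A : Finset (Fin n)} {τ : Equiv.Perm (Fin n)} (hP : Pr β A τ) {V : Finset (Fin n → ℝ)}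
    (hV : V.Nonempty) :
    ∫ y, Sup (V.image (LL β A τ)) (hV.image _) y ∂(μ.map (yy A τ)) ≤ ∫ x, Sup V hV x ∂μ := by
  have hτ' : ∀ i, β (τ⁻¹ i) = β i := by
    intro i
    have := hP.blk (τ⁻¹ i)
    rw [p_inv] at this
    exact this.symm
  rw [integral_map (yy_cont A τ).measurable.aemeasurable (Sup_cont _).aestronglyMeasurable]
  set W := V.image (avg β Aᶜ) with hW
  have hWn : W.Nonempty := hV.image _
  have h1 : ∀ x, Sup (V.image (LL β A τ)) (hV.image _) (yy A τ x) ≤
      1 / 2 * Sup W hWn x + 1 / 2 * Sup W hWn (fun i => x (τ⁻¹ i)) := by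
    intro x
    apply Sup_le
    intro v' hv' w' hw'
    obtain ⟨v, hv, rfl⟩ := Finset.mem_image.1 hv'
    obtain ⟨w, hw, rfl⟩ := Finset.mem_image.1 hw'
    set b : Fin n → ℝ := fun i => avg β Aᶜ v i - avg β Aᶜ w i with hb
    have e1 : ∀ i, (LL β A τ v i - LL β A τ w i) * yy A τ x i =
        (if i ∈ A then b i - b (τ i) else 0) * yy A τ x i := by
      intro i
      unfold LL
      split_ifs
      · rw [hb]; ring
      · ring
    rw [Finset.sum_congr rfl fun i _ => e1 i, pair_sum hP b x]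
    have e2 : ∑ i, (b i - b (τ i)) * x i =
        ∑ i, (avg β Aᶜ v i - avg β Aᶜ w i) * x i +
        ∑ i, (avg β Aᶜ w i - avg β Aᶜ v i) * x (τ⁻¹ i) := by
      rw [← sum_perm τ (fun i => avg β Aᶜ w i - avg β Aᶜ v i) x, ← Finset.sum_add_distrib]
      exact Finset.sum_congr rfl fun i _ => by rw [hb]; ring
    rw [e2, mul_add]
    have h3 := le_Sup hWn x (Finset.mem_image_of_mem (avg β Aᶜ) hv)
      (Finset.mem_image_of_mem (avg β Aᶜ) hw)
    have h4 := le_Sup hWn (fun i => x (τ⁻¹ i)) (Finset.mem_image_of_mem (avg β Aᶜ) hw)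
      (Finset.mem_image_of_mem (avg β Aᶜ) hv)
    linarith
  have h2 := int_Sup_perm h hτ' hWn
  have h3 := int_Sup_avg h Aᶜ hV
  have h4 : Integrable (fun x => Sup (V.image (LL β A τ)) (hV.image _) (yy A τ x)) μ := by
    have h5 := x27_Sup_int (lc_of_ulc (ulc_yy h hP)) (hV.image (LL β A τ))
    exact h5.comp_measurable (yy_cont A τ).measurable
  calc ∫ x, Sup (V.image (LL β A τ)) (hV.image _) (yy A τ x) ∂μ
      ≤ ∫ x, (1 / 2 * Sup W hWn x + 1 / 2 * Sup W hWn (fun i => x (τ⁻¹ i))) ∂μ :=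
        integral_mono h4 (((x27_Sup_int h.lc hWn).const_mul _).add (h2.1.const_mul _)) h1
    _ = ∫ x, Sup W hWn x ∂μ := by
        rw [integral_add ((x27_Sup_int h.lc hWn).const_mul _) (h2.1.const_mul _),
          integral_const_mul, integral_const_mul, h2.2]
        ring
    _ ≤ _ := h3

end Pool.Agent.H21.SX
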